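import Pool.Agent.Run7.h914.SQJ.Hev

/-! Joint covering for the squares of all coordinates of the members of a well distributed family -/

set_option autoImplicit false
set_option linter.all false

namespace Run7.h914.SQJ

open Finset Filter
open Pool.Agent.H256R2.SC (Col supp qq emb emb_mem emb_surj mem_supp prod_nu1 nu1 Asum ev_facts scales)
open Pool.Agent.H378R2.QG
open Pool.Agent.Y837.SV
open Pool.Agent.N725.JC
open Pool.Agent.Helper919 (XX XX_apply XX_abs_le)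

open scoped Classical

theorem le_sq1 (x : ℝ) (hx : 0 ≤ x) : x ≤ (x + 1) ^ 2 := by nlinarith

theorem le_sq2 (x : ℝ) (hx : 0 ≤ x) : x ^ 2 ≤ (x + 1) ^ 2 := by nlinarith

theorem sum_sq (PP : Finset ℕ) (d : ℕ) : ∑ i : Fin (PP.card * d), 1 / ((pr PP d i : ℕ) : ℝ) ^ 2 =
    (d : ℝ) * ∑ a : Fin PP.card, 1 / ((emb PP a : ℕ) : ℝ) ^ 2 := by
  have h := sum_ix PP d (fun p _ => 1 / ((p : ℕ) : ℝ) ^ 2)
  rw [h, Finset.mul_sum]
  refine Finset.sum_congr rfl fun a _ => ?_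
  rw [Finset.sum_const, card_univ, Fintype.card_fin, nsmul_eq_mul]

theorem Ksum {σ : Type} [Fintype σ] [DecidableEq σ] {d : ℕ} (E : Finset ℤ) (sh : σ → ℤ)
    (hshi : Function.Injective sh) {c₃ L l K₁ K₂ : ℝ} (hc₃ : 0 < c₃) (hLpos : 0 < L) (hK₁0 : 0 ≤ K₁)
    (hK16 : K₁ ≤ 16 / c₃) (hK₂ : K₂ = 16 * l * Real.exp (l / 20) / c₃) (hK₂0 : 0 ≤ K₂)
    (hSL : ((d : ℝ) + 1) ^ 2 * (Fintype.card σ : ℝ) ≤ c₃ / 12800 * L) (hE : (E.card : ℝ) ≤ L ^ (7 / 10 : ℝ))
    (k2 : 2 * (L ^ (7 / 10 : ℝ) * (16 * l * Real.exp (l / 20) / (c₃ / ((d : ℝ) + 1)))) ≤ L / 400) :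
    ∑ k : Fin d × σ, (if -sh k.2 ∈ E then K₂ else K₁) ≤ L / 400 := by
  have hd0 : (0 : ℝ) ≤ d := Nat.cast_nonneg d
  have hd1 : (0 : ℝ) < (d : ℝ) + 1 := by linarith
  have hσ0 : (0 : ℝ) ≤ Fintype.card σ := Nat.cast_nonneg _
  have h0 : ∑ k : Fin d × σ, (if -sh k.2 ∈ E then K₂ else K₁) = (d : ℝ) * ∑ k : σ, (if -sh k ∈ E then K₂ else K₁) := by
    calc ∑ k : Fin d × σ, (if -sh k.2 ∈ E then K₂ else K₁) =
        ∑ _j : Fin d, ∑ k : σ, (if -sh k ∈ E then K₂ else K₁) := Fintype.sum_prod_type _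
      _ = _ := by rw [Finset.sum_const, card_univ, Fintype.card_fin, nsmul_eq_mul]
  rw [h0]
  have h1 : ∑ k : σ, (if -sh k ∈ E then K₂ else K₁) ≤ (Fintype.card σ : ℝ) * K₁ + (E.card : ℝ) * K₂ := by
    have h2 : ∀ k : σ, (if -sh k ∈ E then K₂ else K₁) ≤ K₁ + (if -sh k ∈ E then K₂ else 0) := by
      intro k
      split_ifs <;> linarith
    refine (Finset.sum_le_sum fun k _ => h2 k).trans ?_
    rw [Finset.sum_add_distrib, Finset.sum_const, card_univ, nsmul_eq_mul, ← Finset.sum_filter,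
      Finset.sum_const, nsmul_eq_mul]
    have h3 : ((univ.filter (fun k : σ => -sh k ∈ E)).card : ℝ) ≤ E.card := by
      have : (univ.filter (fun k : σ => -sh k ∈ E)).card ≤ E.card := by
        apply Finset.card_le_card_of_injOn (fun k => -sh k)
        · intro k hk
          rw [Finset.mem_coe, Finset.mem_filter] at hk
          exact hk.2
        · intro k _ k' _ hkk
          exact hshi (neg_injective hkk)
      exact_mod_cast this
    have := mul_le_mul_of_nonneg_right h3 hK₂0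
    linarith
  have h2 : (d : ℝ) * ((Fintype.card σ : ℝ) * K₁) ≤ L / 800 := by
    have e1 : (d : ℝ) * (Fintype.card σ : ℝ) ≤ c₃ / 12800 * L := by
      refine le_trans ?_ hSL
      exact mul_le_mul_of_nonneg_right (le_sq1 _ hd0) hσ0
    calc (d : ℝ) * ((Fintype.card σ : ℝ) * K₁) = ((d : ℝ) * (Fintype.card σ : ℝ)) * K₁ := by ring
      _ ≤ (c₃ / 12800 * L) * (16 / c₃) := mul_le_mul e1 hK16 hK₁0 (by positivity)
      _ = L / 800 := by field_simp; ring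
  have h3 : (d : ℝ) * ((E.card : ℝ) * K₂) ≤ L / 800 := by
    have e1 : (E.card : ℝ) * K₂ ≤ L ^ (7 / 10 : ℝ) * K₂ := mul_le_mul_of_nonneg_right hE hK₂0
    have e2 : 16 * l * Real.exp (l / 20) / (c₃ / ((d : ℝ) + 1)) = ((d : ℝ) + 1) * K₂ := by
      rw [hK₂]
      field_simp
    rw [e2] at k2
    have e3 : 0 ≤ L ^ (7 / 10 : ℝ) * K₂ := mul_nonneg (Real.rpow_nonneg hLpos.le _) hK₂0
    calc (d : ℝ) * ((E.card : ℝ) * K₂) ≤ ((d : ℝ) + 1) * (L ^ (7 / 10 : ℝ) * K₂) := by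
          apply mul_le_mul (by linarith) e1 (mul_nonneg (Nat.cast_nonneg _) hK₂0) hd1.le
      _ = L ^ (7 / 10 : ℝ) * (((d : ℝ) + 1) * K₂) := by ring
      _ ≤ L / 800 := by linarith
  calc (d : ℝ) * ∑ k : σ, (if -sh k ∈ E then K₂ else K₁) ≤
        (d : ℝ) * ((Fintype.card σ : ℝ) * K₁ + (E.card : ℝ) * K₂) := mul_le_mul_of_nonneg_left h1 hd0
    _ = (d : ℝ) * ((Fintype.card σ : ℝ) * K₁) + (d : ℝ) * ((E.card : ℝ) * K₂) := by ring
    _ ≤ L / 400 := by linarith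

/-- The squares of all coordinates of a member of a well distributed family in a given class modulo `P`. -/
theorem scov0 (d : ℕ) : ∃ c : ℝ, 0 < c ∧ ∃ X₀ : ℝ, ∀ Z : ℕ, X₀ ≤ Z →
    ∀ (σ : Type) [Fintype σ] [DecidableEq σ] (sh : σ → ℤ), Function.Injective sh →
    (∀ k, |(sh k : ℝ)| ≤ (Real.log Z) ^ (11 / 10 : ℝ)) → (∀ k, ¬ IsSquare (-sh k)) →
    (Fintype.card σ : ℝ) ≤ c * Real.log Z →
    ∀ P : ℕ, 0 < P → 4 * (P : ℝ) ≤ (Z : ℝ) ^ (1 / 2 : ℝ) →
    (∀ p : ℕ, p.Prime → p ∣ P → (p : ℝ) ≤ (Real.log Z) ^ 2) →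
    ∀ b0 : Fin d → ℤ, ∀ (α : Type) (s : Finset α) (v : α → Fin d → ℤ), Fam d Z s v → ∃ x ∈ s,
      (∀ j, (P : ℤ) ∣ v x j - b0 j) ∧
      ∀ j, ∀ k : σ, ∃ p : ℕ, p.Prime ∧ (Real.log Z) ^ 2 < p ∧ (p : ℝ) ≤ (Z : ℝ) ^ (1 / 10 : ℝ) ∧
        (p : ℤ) ∣ v x j ^ 2 + sh k := by
  obtain ⟨c₂, hc₂, hAl⟩ := A_lower
  obtain ⟨C, hC0, LT, hT⟩ := T_lower
  obtain ⟨CM₀, hM₀⟩ := Pool.Agent.Helper256.KM.mertens_inv
  have hCM0 : 0 ≤ max CM₀ 0 := le_max_right _ _
  have hc₃ : 0 < c₂ * Real.exp (-C) := mul_pos hc₂ (Real.exp_pos _)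
  obtain ⟨c₃, hc3⟩ : ∃ c₃, c₃ = c₂ * Real.exp (-C) := ⟨_, rfl⟩
  rw [← hc3] at hc₃
  have hC1 : 1 ≤ 2 / c₃ + 1 := by
    have : 0 < 2 / c₃ := by positivity
    linarith
  have hd0 : (0 : ℝ) ≤ d := Nat.cast_nonneg d
  have hd1 : (0 : ℝ) < (d : ℝ) + 1 := by linarith
  obtain ⟨c, hc⟩ : ∃ c : ℝ, c = min (1 / 8) (c₃ / 12800) / ((d : ℝ) + 1) ^ 2 := ⟨_, rfl⟩
  have hmin0 : 0 < min (1 / 8) (c₃ / 12800) := lt_min (by norm_num) (by positivity)
  have hc0 : 0 < c := by rw [hc]; positivity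
  have hcd : c * ((d : ℝ) + 1) ^ 2 = min (1 / 8) (c₃ / 12800) := by rw [hc]; field_simp
  have hc8 : c * ((d : ℝ) + 1) ^ 2 ≤ 1 / 8 := by rw [hcd]; exact min_le_left _ _
  have hcc : c * ((d : ℝ) + 1) ^ 2 ≤ c₃ / 12800 := by rw [hcd]; exact min_le_right _ _
  obtain ⟨L₀, hL₀⟩ := ev_facts (2 / c₃ + 1) (max CM₀ 0)
  obtain ⟨L₁, hL₁⟩ := ev_more (c₃ / ((d : ℝ) + 1)) (by positivity)
  refine ⟨c, hc0, Real.exp (max (max (max L₀ L₁) LT) d), ?_⟩
  intro Z hX σ _ _ sh hshi hshb hshs hcardσ P hP0 hP4 hPp b0 α s v hs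
  obtain ⟨X, hXZ⟩ : ∃ X : ℝ, X = (Z : ℝ) := ⟨_, rfl⟩
  rw [← hXZ] at hX hshb hcardσ hP4 hPp ⊢
  have hX0 : 0 < X := lt_of_lt_of_le (Real.exp_pos _) hX
  obtain ⟨L, hL⟩ : ∃ L, L = Real.log X := ⟨_, rfl⟩
  rw [← hL] at hshb hcardσ hPp ⊢
  have hXL : X = Real.exp L := by rw [hL]; exact (Real.exp_log hX0).symm
  have hLmax0 : max (max (max L₀ L₁) LT) (d : ℝ) ≤ L := by
    rw [hL, ← Real.log_exp (max (max (max L₀ L₁) LT) (d : ℝ))]
    exact Real.log_le_log (Real.exp_pos _) hX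
  have hLmax : max (max L₀ L₁) LT ≤ L := (le_max_left _ _).trans hLmax0
  have hdL : (d : ℝ) ≤ L := (le_max_right _ _).trans hLmax0
  obtain ⟨f1, f2, f3, f4, f5, f6⟩ := hL₀ L (((le_max_left _ _).trans (le_max_left _ _)).trans hLmax)
  obtain ⟨k1, k2, k3⟩ := hL₁ L (((le_max_right _ _).trans (le_max_left _ _)).trans hLmax)
  obtain ⟨E, hE, hTD⟩ := hT L ((le_max_right _ _).trans hLmax)
  obtain ⟨m, hm1, hm2, hm3⟩ := scales (2 / c₃ + 1) L hC1 f1 f3 f5
  obtain ⟨l, hl⟩ : ∃ l, l = Real.log L := ⟨_, rfl⟩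
  rw [← hl] at f1 f2 f6 k1 k2 hm1 hm2 hm3 hTD
  clear f3 hLmax hLmax0 hL₀ hL₁ hT
  have hl0 : 0 < l := by linarith
  have hLpos : 0 < L := by linarith
  have hLexp : L = Real.exp l := by rw [hl]; exact (Real.exp_log hLpos).symm
  have hXr : ∀ s : ℝ, X ^ s = Real.exp (s * L) := by
    intro s
    rw [hXL, ← Real.exp_mul, mul_comm]
  obtain ⟨z₀, hz₀⟩ : ∃ z₀, z₀ = Real.exp (2 * (2 / c₃ + 1) * l) := ⟨_, rfl⟩
  obtain ⟨z, hz⟩ : ∃ z, z = z₀ ^ (2 ^ m) := ⟨_, rfl⟩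
  have hlogz0 : Real.log z₀ = 2 * (2 / c₃ + 1) * l := by rw [hz₀]; exact Real.log_exp _
  have hz01 : 1 < z₀ := by rw [hz₀]; exact Real.one_lt_exp_iff.mpr (by positivity)
  have hlogz : Real.log z = (2:ℝ) ^ m * (2 * (2 / c₃ + 1) * l) := by
    rw [hz, Real.log_pow, hlogz0]
    push_cast
    ring
  have hzpos : 0 < z := by rw [hz]; positivity
  have hlz1 : Real.log z ≤ L / (1000 * l) := by rw [hlogz]; exact hm1
  have hlz2 : L / (2000 * l) ≤ Real.log z := by rw [hlogz]; exact hm2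
  have hyz' : 2 * l ≤ Real.log z := by
    rw [hlogz]
    have h2j : (1:ℝ) ≤ 2 ^ m := one_le_pow₀ (by norm_num)
    have h1 : 2 * l ≤ 2 * (2 / c₃ + 1) * l := by
      have := mul_le_mul_of_nonneg_right (mul_le_mul_of_nonneg_left hC1 (show (0:ℝ) ≤ 2 by norm_num)) hl0.le
      linarith
    have h2 : 0 < 2 * (2 / c₃ + 1) * l := by positivity
    exact h1.trans (le_mul_of_one_le_left h2.le h2j)
  clear hlogz hm1 hm2
  have hlzpos : 0 < Real.log z := lt_of_lt_of_le (by positivity) hlz2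
  have hzexp : z = Real.exp (Real.log z) := (Real.exp_log hzpos).symm
  have hz1 : 1 < z := by rw [hzexp]; exact Real.one_lt_exp_iff.mpr hlzpos
  have hlzL : Real.log z ≤ L / 10000 := by
    refine hlz1.trans ?_
    apply div_le_div_of_nonneg_left hLpos.le (by norm_num)
    linarith
  have hz10 : z ≤ X ^ (1 / 10 : ℝ) := by
    rw [hzexp, hXr]
    apply Real.exp_le_exp.mpr
    linarith
  have hzL : z ≤ Real.exp L := by
    rw [hzexp]
    exact Real.exp_le_exp.mpr (by linarith)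
  have hLL2 : L ≤ L ^ 2 := le_self_pow₀ (by linarith) two_ne_zero
  have hy1' : 1000 ≤ L ^ 2 := by linarith
  have hy1 : 3 ≤ L ^ 2 := by linarith
  have hlogy : Real.log (L ^ 2) = 2 * l := by rw [Real.log_pow, ← hl]; push_cast; ring
  have hyz : L ^ 2 ≤ z := by
    rw [← Real.log_le_log_iff (by linarith) hzpos, hlogy]
    exact hyz'
  -- the sieving primes
  obtain ⟨PP, hPP⟩ : ∃ PP, PP = PZ (L ^ 2) z := ⟨_, rfl⟩
  have hPPmem : ∀ p ∈ PP, p.Prime ∧ L ^ 2 < (p:ℝ) ∧ (p:ℝ) ≤ z := by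
    intro p hp
    rw [hPP] at hp
    unfold PZ at hp
    rw [Finset.mem_filter, Finset.mem_Icc] at hp
    refine ⟨hp.2.1, hp.2.2, ?_⟩
    calc (p:ℝ) ≤ (⌊z⌋₊ : ℝ) := by exact_mod_cast hp.1.2
      _ ≤ z := Nat.floor_le hzpos.le
  have hPprime : ∀ p ∈ PP, p.Prime := fun p hp => (hPPmem p hp).1
  have hPprime2 : ∀ p ∈ PP, p.Prime ∧ p ≠ 2 := fun p hp => ⟨(hPPmem p hp).1, by
    rintro rfl
    have := (hPPmem 2 hp).2.1
    push_cast at this
    linarith⟩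
  have hn1 : (PP.card:ℝ) + 1 ≤ z := by
    have h1 : PP ⊆ Finset.Icc 2 ⌊z⌋₊ := by
      intro p hp
      have hp' := hp
      rw [hPP] at hp'
      unfold PZ at hp'
      rw [Finset.mem_filter, Finset.mem_Icc] at hp'
      rw [Finset.mem_Icc]
      exact ⟨hp'.2.1.two_le, hp'.1.2⟩
    have h2 := Finset.card_le_card h1
    rw [Nat.card_Icc] at h2
    have h3 : 1 ≤ ⌊z⌋₊ := Nat.le_floor (by
      push_cast
      exact hz1.le)
    have h4 : PP.card + 1 ≤ ⌊z⌋₊ := by omega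
    calc (PP.card:ℝ) + 1 ≤ (⌊z⌋₊ : ℝ) := by exact_mod_cast h4
      _ ≤ z := Nat.floor_le hzpos.le
  have hdz : (d : ℝ) ≤ z := by linarith
  have hn2 : ((PP.card * d : ℕ) : ℝ) + 1 ≤ z ^ 2 := by
    push_cast
    have h0 : (0 : ℝ) ≤ PP.card := Nat.cast_nonneg _
    have h1 : (PP.card : ℝ) * d ≤ PP.card * z := mul_le_mul_of_nonneg_left hdz h0
    have h2 : ((PP.card : ℝ) + 1) * z ≤ z * z := mul_le_mul_of_nonneg_right hn1 hzpos.le
    have h3 : ((PP.card : ℝ) + 1) * z = PP.card * z + z := by ring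
    rw [sq]
    linarith
  -- the shifts
  have hinj : ∀ p ∈ PP, ∀ k l : σ, k ≠ l → ¬ ((p : ℤ) ∣ sh k - sh l) := fun p hp k k' hkl =>
    inj_of_small k3 (hshb k) (hshb k') (fun h => hkl (hshi h)) (hPPmem p hp).2.1
  obtain ⟨Pf, hPf⟩ : ∃ Pf : Fin (PP.card * d) → ℝ, Pf = fun i => ((pr PP d i : ℕ) : ℝ) := ⟨_, rfl⟩
  obtain ⟨g, hg⟩ : ∃ g : Fin (PP.card * d) → (Fin d × σ) → ℝ, g = gJ PP d sh := ⟨_, rfl⟩
  have hgdef : ∀ i k, g i k = if co PP d i = k.1 then (1 + XX (-sh k.2) (pr PP d i)) / ((pr PP d i : ℕ) : ℝ) else 0 :=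
    fun i k => by rw [hg]; rfl
  have hPy : ∀ i, L ^ 2 < Pf i := fun i => by rw [hPf]; exact (hPPmem _ (pr_mem PP d i)).2.1
  have hPz : ∀ i, Pf i ≤ z := fun i => by rw [hPf]; exact (hPPmem _ (pr_mem PP d i)).2.2
  have hP1 : ∀ i, 1 < Pf i := fun i => by linarith [hPy i]
  have hP0' : ∀ i, 0 < Pf i := fun i => by linarith [hPy i]
  have hw0 : ∀ (h : ℤ) (p : ℕ), 0 ≤ (1 + XX (-h) p) / (p : ℝ) := fun h p => by
    apply div_nonneg _ (Nat.cast_nonneg p)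
    have := (abs_le.mp (XX_abs_le (-h) p)).1
    linarith
  have hg0 : ∀ i k, 0 ≤ g i k := fun i k => by
    rw [hgdef]
    split_ifs
    · exact hw0 _ _
    · exact le_rfl
  have hgP : ∀ i k, g i k ≤ 2 / Pf i := fun i k => by
    rw [hgdef]
    have h2 : 0 ≤ 2 / Pf i := div_nonneg (by norm_num) (hP0' i).le
    split_ifs
    · have e : Pf i = ((pr PP d i : ℕ) : ℝ) := by rw [hPf]
      rw [e] at h2 ⊢
      apply div_le_div_of_nonneg_right _ (Nat.cast_nonneg _)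
      have := (abs_le.mp (XX_abs_le (-sh k.2) (pr PP d i))).2
      linarith
    · exact h2
  have hgy : ∀ i k, g i k ≤ 2 / L ^ 2 := fun i k => by
    refine (hgP i k).trans ?_
    exact div_le_div_of_nonneg_left (by norm_num) (by linarith) (hPy i).le
  -- the profiles
  have hAsum : ∀ (k : Fin d × σ) (x : ℝ),
      ∑ s ∈ (PP.powerset.filter (fun s : Finset ℕ => s.Nonempty ∧ ∏ p ∈ s, (p : ℝ) ≤ x)),
        ∏ p ∈ s, (1 + XX (-sh k.2) p) / p ≤ Asum Pf (fun i => g i k) x := fun k x => by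
    have h1 := Asum_ge PP d k.1 (fun p => (1 + XX (-sh k.2) p) / p) (fun p _ => hw0 _ _) x
    have e : (fun i => g i k) = (fun i => if co PP d i = k.1 then (1 + XX (-sh k.2) (pr PP d i)) / ((pr PP d i : ℕ) : ℝ) else 0) := by
      funext i
      exact hgdef i k
    rw [hPf, e]
    exact h1
  obtain ⟨K₁, hK₁⟩ : ∃ K₁, K₁ = 4 / (c₃ / (4 * l) * ((m + 1 : ℕ) : ℝ)) := ⟨_, rfl⟩
  obtain ⟨K₂, hK₂⟩ : ∃ K₂, K₂ = 16 * l * Real.exp (l / 20) / c₃ := ⟨_, rfl⟩
  have hgood : ∀ k : Fin d × σ, -sh k.2 ∉ E → ∃ h, Hyp Pf (fun i => g i k) h z K₁ := by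
    intro k hk
    rw [hK₁]
    apply prof_good hc₃ hl0 hlogz0 hz01 hz hy1 hlogy _ _ hP1 (fun i => hg0 i k)
    intro x hx1 hx2
    have h1 := hAl (L ^ 2) z x C (fun p => XX (-sh k.2) p)
      (fun p => XX_abs_le _ _) hy1 hx1 hx2 hC0
      (fun w hw1 hw2 => (hTD (-sh k.2) (hshs k.2) (by push_cast; rw [abs_neg]; exact hshb k.2)).2 hk w hw1
        (hw2.trans hzL))
    rw [← hc3, ← hPP] at h1
    exact h1.trans (hAsum k x)
  have k1' : 2 ≤ c₃ * Real.exp (-(l / 20)) * ((L / (2000 * l)) / (2 * l)) := by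
    refine k1.trans ?_
    have h1 : c₃ / ((d : ℝ) + 1) ≤ c₃ := div_le_self hc₃.le (by linarith)
    have h2 : 0 ≤ Real.exp (-(l / 20)) := (Real.exp_pos _).le
    have h3 : 0 ≤ (L / (2000 * l)) / (2 * l) := by positivity
    exact mul_le_mul_of_nonneg_right (mul_le_mul_of_nonneg_right h1 h2) h3
  have hbad : ∀ k : Fin d × σ, ∃ h, Hyp Pf (fun i => g i k) h z K₂ := by
    intro k
    rw [hK₂]
    apply prof_bad hc₃ hl0 hz1 hlz2 _ _ hP1 (fun i => hg0 i k) k1'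
    have h1 := hAl (L ^ 2) z z (C + l / 20) (fun p => XX (-sh k.2) p)
      (fun p => XX_abs_le _ _) hy1 hyz le_rfl (by positivity)
      (fun w hw1 hw2 => (hTD (-sh k.2) (hshs k.2) (by push_cast; rw [abs_neg]; exact hshb k.2)).1 w hw1
        (hw2.trans hzL))
    have h2 : c₂ * Real.exp (-(C + l / 20)) = c₃ * Real.exp (-(l / 20)) := by
      rw [hc3, mul_assoc, ← Real.exp_add]
      congr 2
      ring
    rw [h2, hlogy, ← hPP] at h1
    exact h1.trans (hAsum k z)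
  have hprof : ∀ k : Fin d × σ, ∃ h, Hyp Pf (fun i => g i k) h z
      (if -sh k.2 ∈ E then K₂ else K₁) := by
    intro k
    by_cases hk : -sh k.2 ∈ E
    · obtain ⟨h, H⟩ := hbad k
      refine ⟨h, ?_⟩
      rw [if_pos hk]
      exact H
    · obtain ⟨h, H⟩ := hgood k hk
      refine ⟨h, ?_⟩
      rw [if_neg hk]
      exact H
  clear hgood hbad hAsum hTD hAl
  choose h H using hprof
  have hK16 : K₁ ≤ 16 / c₃ := by
    rw [hK₁, div_le_div_iff₀ (by positivity) hc₃]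
    have h1 : c₃ / 4 ≤ c₃ / (4 * l) * ((m + 1 : ℕ) : ℝ) := by
      push_cast
      calc c₃ / 4 = c₃ / (4 * l) * l := by field_simp
        _ ≤ c₃ / (4 * l) * (m + 1) := mul_le_mul_of_nonneg_left hm3 (by positivity)
    linarith
  have hK₁0 : 0 ≤ K₁ := by rw [hK₁]; positivity
  have hK₂0 : 0 ≤ K₂ := by rw [hK₂]; positivity
  have hSL : ((d : ℝ) + 1) ^ 2 * (Fintype.card σ : ℝ) ≤ c₃ / 12800 * L := by
    calc ((d : ℝ) + 1) ^ 2 * (Fintype.card σ : ℝ) ≤ ((d : ℝ) + 1) ^ 2 * (c * L) :=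
          mul_le_mul_of_nonneg_left hcardσ (by positivity)
      _ = (c * ((d : ℝ) + 1) ^ 2) * L := by ring
      _ ≤ c₃ / 12800 * L := mul_le_mul_of_nonneg_right hcc hLpos.le
  have hSL8 : ((d : ℝ) + 1) ^ 2 * (Fintype.card σ : ℝ) ≤ L / 8 := by
    calc ((d : ℝ) + 1) ^ 2 * (Fintype.card σ : ℝ) ≤ ((d : ℝ) + 1) ^ 2 * (c * L) :=
          mul_le_mul_of_nonneg_left hcardσ (by positivity)
      _ = (c * ((d : ℝ) + 1) ^ 2) * L := by ring
      _ ≤ 1 / 8 * L := mul_le_mul_of_nonneg_right hc8 hLpos.le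
      _ = L / 8 := by ring
  have hσ0 : (0 : ℝ) ≤ Fintype.card σ := Nat.cast_nonneg _
  have hKsum : ∑ k : Fin d × σ, (if -sh k.2 ∈ E then K₂ else K₁) ≤ L / 400 :=
    Ksum E sh hshi hc₃ hLpos hK₁0 hK16 hK₂ hK₂0 hSL hE k2
  obtain ⟨u, hu⟩ : ∃ u, u = (Fintype.card (Fin d × σ) : ℝ) := ⟨_, rfl⟩
  have hud : u = d * (Fintype.card σ : ℝ) := by
    rw [hu, Fintype.card_prod, Fintype.card_fin]
    push_cast
    ring
  have hu0 : 0 ≤ u := by rw [hu]; exact Nat.cast_nonneg _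
  have huL : u ≤ L / 8 := by
    rw [hud]
    exact (mul_le_mul_of_nonneg_right (le_sq1 _ hd0) hσ0).trans hSL8
  have hudL : u * d ≤ L / 8 := by
    rw [hud]
    refine le_trans ?_ hSL8
    calc (d : ℝ) * (Fintype.card σ : ℝ) * d = (d : ℝ) ^ 2 * (Fintype.card σ : ℝ) := by ring
      _ ≤ ((d : ℝ) + 1) ^ 2 * (Fintype.card σ : ℝ) := mul_le_mul_of_nonneg_right (le_sq2 _ hd0) hσ0
  -- the sum of the densities
  have hmax : 20 * max CM₀ 0 ≤ l := f2
  have hz3 : 3 ≤ z := by linarith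
  have hsumP : ∑ i : Fin PP.card, 1 / ((emb PP i : ℕ) : ℝ) ≤ l + max CM₀ 0 := by
    have h1 : ∑ i : Fin PP.card, 1 / ((emb PP i : ℕ) : ℝ) = ∑ p ∈ PP, 1 / (p:ℝ) := by
      have : PP = univ.map (emb PP) := by
        ext p
        rw [Finset.mem_map]
        constructor
        · intro hp
          obtain ⟨i, hi⟩ := emb_surj PP hp
          exact ⟨i, Finset.mem_univ _, hi⟩
        · rintro ⟨i, _, rfl⟩
          exact emb_mem PP i
      conv_rhs => rw [this]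
      rw [Finset.sum_map]
    rw [h1, hPP, hl]
    exact sum_inv_PZ hM₀ hz3 (by linarith)
  have hGk : ∀ k : Fin d × σ, ∑ i, g i k ≤ 2 * (l + max CM₀ 0) := by
    intro k
    have e1 : ∑ i, g i k = ∑ a : Fin PP.card, ∑ j : Fin d,
        (if j = k.1 then (1 + XX (-sh k.2) (emb PP a)) / ((emb PP a : ℕ) : ℝ) else 0) := by
      rw [← sum_ix PP d (fun p j => if j = k.1 then (1 + XX (-sh k.2) p) / (p : ℝ) else 0)]
      exact Finset.sum_congr rfl fun i _ => hgdef i k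
    rw [e1]
    calc ∑ a : Fin PP.card, ∑ j : Fin d,
        (if j = k.1 then (1 + XX (-sh k.2) (emb PP a)) / ((emb PP a : ℕ) : ℝ) else 0)
        ≤ ∑ a : Fin PP.card, 2 * (1 / ((emb PP a : ℕ) : ℝ)) := by
          apply Finset.sum_le_sum
          intro a _
          rw [Finset.sum_ite_eq' univ k.1, if_pos (mem_univ _), mul_one_div]
          apply div_le_div_of_nonneg_right _ (Nat.cast_nonneg _)
          have := (abs_le.mp (XX_abs_le (-sh k.2) (emb PP a))).2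
          linarith
      _ = 2 * ∑ a : Fin PP.card, 1 / ((emb PP a : ℕ) : ℝ) := by rw [Finset.mul_sum]
      _ ≤ 2 * (l + max CM₀ 0) := by linarith
  -- parameters
  obtain ⟨J, hJ⟩ : ∃ J : ℕ, J = 2 * ⌈22 * l⌉₊ := ⟨_, rfl⟩
  have hJ1 : 44 * l ≤ (J:ℝ) := by
    have := Nat.le_ceil (22 * l)
    rw [hJ]; push_cast; linarith
  have hJ2 : (J:ℝ) ≤ 45 * l := by
    have := Nat.ceil_lt_add_one (show 0 ≤ 22 * l by positivity)
    rw [hJ]; push_cast; linarith
  have hJe : Even J := ⟨⌈22 * l⌉₊, by rw [hJ]; ring⟩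
  have hQ1 : 1 ≤ Real.exp (L / 40) := Real.one_le_exp (by positivity)
  have hzJ : z ^ J ≤ Real.exp (45 * L / 1000) := by
    rw [hzexp, ← Real.exp_nat_mul]
    apply Real.exp_le_exp.mpr
    calc (J:ℝ) * Real.log z ≤ (45 * l) * (L / (1000 * l)) :=
          mul_le_mul hJ2 hlz1 hlzpos.le (by positivity)
      _ = 45 * L / 1000 := by field_simp
  -- sizes of supports
  have hL1 : 1 ≤ L := by linarith
  have hδ' : ∀ D : Col (PP.card * d) (Fin d × σ), qq Pf D ≤ Real.exp (L / 40) →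
      ∀ k, 2 * ∑ i with D i ≠ none, g i k ≤ 2 / L := by
    intro D hD k
    have h1 : ∑ i with D i ≠ none, g i k ≤ (supp D).card * (2 / L ^ 2) := by
      have : ∑ i ∈ supp D, g i k ≤ ∑ i ∈ supp D, (2 / L ^ 2) :=
        Finset.sum_le_sum (fun i _ => hgy i k)
      rw [Finset.sum_const, nsmul_eq_mul] at this
      exact this
    have h2 := supp_card_le Pf hLexp hL1 hPy D (L / 40) hD
    have h2' : ((supp D).card : ℝ) ≤ L / 40 := by
      have h2a : 0 ≤ ((supp D).card : ℝ) := Nat.cast_nonneg _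
      exact (le_mul_of_one_le_right h2a (by linarith)).trans h2
    have h3 : ((supp D).card : ℝ) * (2 / L ^ 2) ≤ L / 40 * (2 / L ^ 2) :=
      mul_le_mul_of_nonneg_right h2' (by positivity)
    have h4 : L / 40 * (2 / L ^ 2) = 1 / (20 * L) := by field_simp; norm_num
    have h5 : 1 / (20 * L) ≤ 1 / L := by
      apply one_div_le_one_div_of_le hLpos
      linarith
    have h6 : 2 / L = 2 * (1 / L) := by ring
    rw [h6]
    linarith
  -- the set of the points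
  obtain ⟨A, hA⟩ : ∃ A : Finset α, A = s.filter (fun x => ∀ j, (P : ℤ) ∣ v x j - b0 j) := ⟨_, rfl⟩
  have hPR : (0 : ℝ) < P := by exact_mod_cast hP0
  have hs1 := hs.1
  have hscard : (0 : ℝ) < s.card := by exact_mod_cast hs1.card_pos
  obtain ⟨N, hN⟩ : ∃ N : ℝ, N = s.card / (P : ℝ) ^ d := ⟨_, rfl⟩
  have hNpos : 0 < N := by rw [hN]; exact div_pos hscard (pow_pos hPR d)
  have hX12p : 0 < X ^ (1 / 2 : ℝ) := Real.rpow_pos_of_pos hX0 _
  have hPX : (P : ℝ) ≤ Real.exp (1 / 2 * L) := by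
    rw [← hXr]
    linarith
  -- the count
  have hevent : ∀ D : Col (PP.card * d) (Fin d × σ),
      qq Pf D ≤ Real.exp (L / 40) ^ 2 * z ^ J →
      |((A.filter (fun a => ∀ i, D i ≠ none → colJ PP d sh (v a) i = D i)).card : ℝ) -
        N * nu g D| ≤ N * Real.exp (-(35 * L / 100)) := by
    intro D hD
    have hD1 : qq Pf D ≤ Real.exp (L / 10) := by
      refine hD.trans ?_
      calc Real.exp (L / 40) ^ 2 * z ^ J ≤ Real.exp (L / 40) ^ 2 * Real.exp (45 * L / 1000) :=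
            mul_le_mul_of_nonneg_left hzJ (by positivity)
        _ = Real.exp (L / 20 + 45 * L / 1000) := by
            rw [← Real.exp_nat_mul, ← Real.exp_add]
            congr 1
            push_cast
            ring
        _ ≤ Real.exp (L / 10) := Real.exp_le_exp.mpr (by linarith)
    rw [hPf] at hD1
    rw [hg]
    exact hev hPprime2 hinj hLpos.le (hXZ.symm.trans hXL) hP0 hPX (fun p hp => (hPPmem p hp).2.1) hPp b0 s v hs hN hA D hD1
  -- apply the core theorem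
  clear hK16 hK₁0 hcc hcardσ k1 k2
  obtain ⟨a, ha, hcov⟩ := core (κ := Fin d × σ) A (fun a => colJ PP d sh (v a)) H (Real.exp (L / 40))
    (2 / L) 3 N (N * Real.exp (-(35 * L / 100))) (2 * (l + max CM₀ 0)) J
    hJe (by norm_num) hNpos (by positivity) hQ1 hz1 (fun i => (hP1 i).le) hg0 hPz
    (fun i k => by
      have h1 : (2:ℝ) / L ^ 2 ≤ 1 := by rw [div_le_one (by linarith)]; linarith
      exact (hgy i k).trans h1)
    (fun i k => by
      have h1 : (2:ℝ) / L ^ 2 ≤ 1 / 9 := by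
        rw [div_le_div_iff₀ (by linarith) (by norm_num)]
        linarith
      have := hgy i k
      linarith)
    (fun i => by
      have h0 : ∑ k, g i k ≤ ∑ k : Fin d × σ, 2 / L ^ 2 := Finset.sum_le_sum (fun k _ => hgy i k)
      rw [Finset.sum_const, Finset.card_univ, nsmul_eq_mul, ← hu] at h0
      have h1 : u * (2 / L ^ 2) ≤ (L / 8) * (2 / L ^ 2) :=
        mul_le_mul_of_nonneg_right huL (by positivity)
      have h2 : (L / 8) * (2 / L ^ 2) = 1 / (4 * L) := by field_simp; norm_num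
      have h3 : 1 / (4 * L) ≤ 1 := by rw [div_le_one (by positivity)]; linarith
      linarith)
    (by positivity) hGk hδ'
    (by
      rw [← hu]
      have : u * (2 / L) ≤ (L / 8) * (2 / L) := mul_le_mul_of_nonneg_right huL (by positivity)
      have e : (L / 8) * (2 / L) = 1 / 4 := by field_simp; norm_num
      linarith)
    (by
      rw [← hu]
      have h0 : ∑ i : Fin (PP.card * d), 1 / (Pf i) ^ 2 =
          (d : ℝ) * ∑ a : Fin PP.card, 1 / ((emb PP a : ℕ) : ℝ) ^ 2 := by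
        rw [hPf]
        exact sum_sq PP d
      rw [h0]
      have h1 : ∑ i : Fin PP.card, 1 / ((emb PP i : ℕ) : ℝ) ^ 2 ≤
          (1 / L ^ 2) * ∑ i : Fin PP.card, 1 / ((emb PP i : ℕ) : ℝ) := by
        rw [Finset.mul_sum]
        apply Finset.sum_le_sum
        intro i _
        have hi := (hPPmem _ (emb_mem PP i)).2.1
        have hi0 : (0 : ℝ) < ((emb PP i : ℕ) : ℝ) := by linarith
        have e1 : 1 / ((emb PP i : ℕ) : ℝ) ^ 2 =
            (1 / ((emb PP i : ℕ) : ℝ)) * (1 / ((emb PP i : ℕ) : ℝ)) := by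
          field_simp
        rw [e1]
        apply mul_le_mul_of_nonneg_right _ (one_div_nonneg.mpr hi0.le)
        exact one_div_le_one_div_of_le (by linarith) hi.le
      have h2 : (1 / L ^ 2) * ∑ i : Fin PP.card, 1 / ((emb PP i : ℕ) : ℝ) ≤ (1 / L ^ 2) * (2 * L) := by
        apply mul_le_mul_of_nonneg_left _ (by positivity)
        linarith
      have h3 : (1 / L ^ 2) * (2 * L) = 2 / L := by field_simp
      have h4 : 2 * (u * d) * ∑ i : Fin PP.card, 1 / ((emb PP i : ℕ) : ℝ) ^ 2 ≤ 2 * (L / 8) * (2 / L) := by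
        apply mul_le_mul _ (by linarith) (Finset.sum_nonneg (fun i _ => by positivity))
          (by positivity)
        linarith
      have e : 2 * (L / 8) * (2 / L) = 1 / 2 := by field_simp; norm_num
      have e' : 2 * u * (d * ∑ i : Fin PP.card, 1 / ((emb PP i : ℕ) : ℝ) ^ 2) =
        2 * (u * d) * ∑ i : Fin PP.card, 1 / ((emb PP i : ℕ) : ℝ) ^ 2 := by ring
      rw [e']
      linarith)
    (by
      rw [← hu]
      exact num_tail hLexp f1 f5 hu0 huL hzpos hlzpos hlz1 hlz2 hKsum)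
    (by
      rw [← hu]
      exact num_mom hLexp f1 f5 hu0 huL hJ1 (by linarith))
    hevent
    (by
      rw [← hu]
      exact num_fin3 f5 hu0 (by linarith) hzpos.le hn2 hzJ hNpos)
  rw [hA, mem_filter] at ha
  refine ⟨a, ha.1, ha.2, fun j k => ?_⟩
  obtain ⟨i, hi⟩ := hcov (j, k)
  obtain ⟨h1, h2⟩ := (colJ_eq hinj (v a) i (j, k)).1 hi
  have h3 := hPPmem _ (pr_mem PP d i)
  refine ⟨pr PP d i, h3.1, h3.2.1, h3.2.2.trans hz10, ?_⟩
  have h4 : co PP d i = j := h1.symm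
  rw [h4] at h2
  exact h2

end Run7.h914.SQJ
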