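import Pool.Agent.Run7.h914.SQJ.MainS
import Pool.Agent.N39.RG.Pairs

/-! From exponential sums over sets of vectors modulo `p` to the squares of the coordinates -/

set_option autoImplicit false
set_option linter.all false

namespace Run7.h914.SQJ

open Finset Filter
open Pool.Agent.W147.PS (ff)

/-- no primes within `F` of `n ^ 2` -/
theorem empty_of {F Y : ℝ} {n : ℤ} (hF0 : 0 ≤ F) (hFY : F ≤ Y) (hY : 1 ≤ Y) (hn : 2 * Y < n)
    (h : ∀ m : ℤ, |(m : ℝ) - (n : ℝ) ^ 2| ≤ F → ¬ IsSquare (n ^ 2 - m) → ∃ l : ℕ, l.Prime ∧ (l : ℝ) ≤ Y ∧ (l : ℤ) ∣ m)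
    (q : ℕ) (hq : q.Prime) : F < |(q : ℝ) - (n : ℝ) ^ 2| := by
  by_contra hc
  push Not at hc
  have hn3 : 3 ≤ n := by
    have : (2 : ℝ) < n := by linarith
    have : (2 : ℤ) < n := by exact_mod_cast this
    omega
  have hn3r : (3 : ℝ) ≤ n := by exact_mod_cast hn3
  have hlo := (abs_le.1 hc).1
  by_cases hsq : IsSquare (n ^ 2 - (q : ℤ))
  · obtain ⟨t, ht⟩ := hsq
    obtain ⟨s, hs⟩ : ∃ s : ℤ, s = |t| := ⟨_, rfl⟩
    have hs0 : 0 ≤ s := by rw [hs]; exact abs_nonneg _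
    have hst : s * s = t * t := by rw [hs]; exact abs_mul_abs_self t
    have h1 : (s : ℝ) * s ≤ F := by
      have : (s : ℝ) * s = (n : ℝ) ^ 2 - q := by
        have h2 : s * s = n ^ 2 - (q : ℤ) := by rw [hst, ht]
        exact_mod_cast h2
      linarith
    have h2 : 2 * (s : ℝ) * s < n := by linarith
    have h3 : 2 * s * s < n := by exact_mod_cast h2
    have h4 : s + 2 ≤ n := by
      by_contra hcon
      push Not at hcon
      have h5 : n - 1 ≤ s := by omega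
      nlinarith
    obtain ⟨a, ha⟩ := Int.eq_ofNat_of_zero_le (show 0 ≤ n - s by omega)
    obtain ⟨b, hb⟩ := Int.eq_ofNat_of_zero_le (show 0 ≤ n + s by omega)
    have h5 : (q : ℤ) = a * b := by
      have h6 : (q : ℤ) = (n - s) * (n + s) := by linear_combination -ht + hst
      rw [h6, ha, hb]
    have h6 : q = a * b := by exact_mod_cast h5
    rw [h6] at hq
    exact Nat.not_prime_mul (by omega) (by omega) hq
  · obtain ⟨l, hl, hl2, hl3⟩ := h q (by push_cast; exact hc) hsq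
    have h1 : l ∣ q := by exact_mod_cast hl3
    have h2 : l = q := (Nat.prime_dvd_prime_iff_eq hl hq).1 h1
    rw [h2] at hl2
    nlinarith

open scoped Classical in
theorem rec_ptsS (r : ℕ) (δ : ℝ) (hδ : 0 < δ) (hδ1 : δ ≤ 1) :
    ∃ κ : ℝ, 0 < κ ∧ ∃ p₀ : ℕ, ∀ (p : ℕ) [Fact p.Prime], p₀ ≤ p →
    ∀ (s ε : ℝ) (S : Finset (Fin r → ZMod p)), (p : ℝ) ^ s / 2 ≤ S.card →
    (∀ α : Fin r → ZMod p, α ≠ 0 →
      ‖∑ x ∈ S, (ZMod.stdAddChar (∑ j, α j * x j) : ℂ)‖ ≤ (p : ℝ) ^ (δ / 8) * (p : ℝ) ^ (s - ε)) →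
    ∀ (M : Fin r → ℤ) (L : Fin r → ℕ), (∀ j, (p : ℝ) ^ δ ≤ L j ∧ L j ≤ p) →
      (p : ℝ) ^ ((r : ℝ) - ε + δ) ≤ ∏ j, (L j : ℝ) →
    (p : ℝ) ^ (-δ) * ((p : ℝ) ^ s * ∏ j, ((L j : ℝ) / p)) ≤
      (Set.ncard {z : Fin r → ℤ | (∀ j, M j < z j ∧ z j ≤ M j + L j) ∧ (fun j => (z j : ZMod p)) ∈ S ∧
        GoodS r κ δ p z} : ℝ) := by
  obtain ⟨κ, hκ, p₁, h⟩ := mainS r (δ / 2) (by linarith) (by linarith)
  have hev : ∀ᶠ x : ℝ in atTop, 2 ≤ x ^ (δ / 2) ∧ 2 ≤ x ^ (δ / 8) := by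
    filter_upwards [(tendsto_rpow_atTop (by positivity : 0 < δ / 2)).eventually_ge_atTop 2,
      (tendsto_rpow_atTop (by positivity : 0 < δ / 8)).eventually_ge_atTop 2] with x h1 h2
    exact ⟨h1, h2⟩
  obtain ⟨x₀, hx₀⟩ := eventually_atTop.mp hev
  obtain ⟨p₂, hp₂⟩ := exists_nat_ge x₀
  refine ⟨κ, hκ, max p₁ p₂, ?_⟩
  intro p _ hpp s ε S hS hE M L hL hV
  have hp : p.Prime := Fact.out
  obtain ⟨g2, gC⟩ := hx₀ p (hp₂.trans (by exact_mod_cast (le_max_right _ _).trans hpp))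
  have hp1 : (1 : ℝ) < p := by exact_mod_cast hp.one_lt
  have hp0 : (0 : ℝ) < p := by linarith
  have hmo : ∀ x y : ℝ, x ≤ y → (p : ℝ) ^ x ≤ (p : ℝ) ^ y := fun x y h =>
    Real.rpow_le_rpow_of_exponent_le hp1.le h
  have hs0 : (0 : ℝ) < (p : ℝ) ^ s := Real.rpow_pos_of_pos hp0 _
  have hSne : S.Nonempty := by
    rw [← Finset.card_pos]
    have : (0 : ℝ) < S.card := by linarith
    exact_mod_cast this
  have key := h p ((le_max_left _ _).trans hpp) (ε - δ / 4) (Fin r → ZMod p) S (fun x => x) hSne (by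
      intro α hα
      refine (hE α hα).trans ?_
      have h1 : (p : ℝ) ^ s / 2 * (p : ℝ) ^ (-(ε - δ / 4)) ≤ S.card * (p : ℝ) ^ (-(ε - δ / 4)) :=
        mul_le_mul_of_nonneg_right hS (Real.rpow_nonneg hp0.le _)
      refine le_trans ?_ h1
      have h2 : (p : ℝ) ^ s / 2 * (p : ℝ) ^ (-(ε - δ / 4)) = (p : ℝ) ^ (s - ε) * (p : ℝ) ^ (δ / 4) / 2 := by
        rw [← Real.rpow_add hp0, div_mul_eq_mul_div, ← Real.rpow_add hp0]
        congr 2
        ring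
      rw [h2]
      have h3 : 0 ≤ (p : ℝ) ^ (s - ε) := Real.rpow_nonneg hp0.le _
      have h4 : (p : ℝ) ^ (δ / 4) = (p : ℝ) ^ (δ / 8) * (p : ℝ) ^ (δ / 8) := by
        rw [← Real.rpow_add hp0]; congr 1; ring
      have h5 : 0 < (p : ℝ) ^ (δ / 8) := Real.rpow_pos_of_pos hp0 _
      have h6 : 2 * (p : ℝ) ^ (δ / 8) ≤ (p : ℝ) ^ (δ / 4) := by rw [h4]; exact mul_le_mul_of_nonneg_right gC h5.le
      have h7 := mul_le_mul_of_nonneg_left h6 h3
      linarith) M L (fun j => (hL j).2) (fun j => (hmo _ _ (by linarith)).trans (hL j).1)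
    ((hmo _ _ (by linarith)).trans hV)
  have hQ0 : 0 ≤ ∏ j, ((L j : ℝ) / p) := prod_nonneg fun j _ => by positivity
  have h4 : (p : ℝ) ^ (-δ) * ((p : ℝ) ^ s * ∏ j, ((L j : ℝ) / p)) ≤
      (p : ℝ) ^ (-(δ / 2)) * (S.card * ∏ j, ((L j : ℝ) / p)) := by
    rw [← mul_assoc, ← mul_assoc]
    refine mul_le_mul_of_nonneg_right ?_ hQ0
    have h5 : (p : ℝ) ^ (-δ) = (p : ℝ) ^ (-(δ / 2)) * (p : ℝ) ^ (-(δ / 2)) := by
      rw [← Real.rpow_add hp0]; congr 1; ring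
    rw [h5, mul_assoc]
    refine mul_le_mul_of_nonneg_left ?_ (Real.rpow_nonneg hp0.le _)
    refine le_trans ?_ hS
    rw [Real.rpow_neg hp0.le, inv_mul_eq_div, div_le_div_iff₀ (Real.rpow_pos_of_pos hp0 _) (by norm_num)]
    nlinarith
  refine h4.trans (key.trans ?_)
  have h5 := Pool.Agent.N39.RG.fam_to_index S (fun x => x) M L (fun j => (hL j).2) (fun z => GoodS r κ (δ / 2) p z)
  refine le_trans (Nat.cast_le.mpr h5) ?_
  rw [Nat.cast_le, ← Set.ncard_coe_finset]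
  set T : Set (Fin r → ℤ) := {z : Fin r → ℤ | (∀ j, M j < z j ∧ z j ≤ M j + L j) ∧ (fun j => (z j : ZMod p)) ∈ S ∧
        GoodS r κ δ p z} with hT
  have hfin : T.Finite := by
    refine (Set.Finite.pi' (fun j => Set.finite_Ioc (M j) (M j + L j))).subset ?_
    intro z hz j
    exact hz.1 j
  refine le_trans (Set.ncard_le_ncard ?_ (hfin.image (fun z : Fin r → ℤ => fun j => (z j : ZMod p))))
    (Set.ncard_image_le hfin)
  intro q hq
  rw [Finset.coe_filter, Set.mem_setOf_eq] at hq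
  obtain ⟨h6, z, h7, h8⟩ := hq
  have hzq : (fun j => (z j : ZMod p)) = q := funext fun j => (h7 j).2.2
  refine ⟨z, ⟨fun j => ⟨(h7 j).1, (h7 j).2.1⟩, ?_, fun j m hm hsq => ?_⟩, hzq⟩
  · rw [hzq]; exact h6
  obtain ⟨l, hl, hl2, hl3⟩ := h8 j m hm hsq
  exact ⟨l, hl, hl2.trans (hmo _ _ (by linarith)), hl3⟩

end Run7.h914.SQJ
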