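import Pool.Agent.Run7.h914.Crv
import Pool.Agent.Run7.h914.SQJ.Rpt

/-! Squares of the coordinates of the points of plane curves modulo primes. -/

set_option autoImplicit false
set_option linter.all false

namespace Run7.h914.SQJ

open Finset Filter Polynomial
open Run7.h914 (ZG TD AbsIrr exists_deg card_curve exp_curve ev_large EG WC_le EG_le mem_ZG)
open Pool.Agent.W147.PS (ff)
open Pool.Agent.R410.PW (WC)

open scoped Classical in
theorem rec_of_sumsS (r : ℕ) (δ : ℝ) (hδ : 0 < δ) (hδ1 : δ ≤ 1) :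
    ∃ κ : ℝ, 0 < κ ∧ ∃ p₀ : ℕ, ∀ (p : ℕ) [Fact p.Prime], p₀ ≤ p →
    ∀ (ι : Type) (S : Finset ι) (R : ι → Fin r → ZMod p), (p : ℝ) / 2 ≤ S.card →
    (∀ α : Fin r → ZMod p, α ≠ 0 →
      ‖∑ i ∈ S, (ZMod.stdAddChar (∑ j, α j * R i j) : ℂ)‖ ≤ (p : ℝ) ^ (δ / 8) * √(p : ℝ)) →
    ∀ (M : Fin r → ℤ) (L : Fin r → ℕ), (∀ j, (p : ℝ) ^ δ ≤ L j ∧ L j ≤ p) →
      (p : ℝ) ^ ((r : ℝ) - 1 / 2 + δ) ≤ ∏ j, (L j : ℝ) →
    (p : ℝ) ^ (-δ) * (p * ∏ j, ((L j : ℝ) / p)) ≤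
      ((S.filter (fun i => ∃ z : Fin r → ℤ,
        (∀ j, M j < z j ∧ z j ≤ M j + L j ∧ ((z j : ℤ) : ZMod p) = R i j) ∧
        GoodS r κ δ p z)).card : ℝ) := by
  obtain ⟨κ, hκ, p₁, h⟩ := mainS r (δ / 2) (by linarith) (by linarith)
  have hev : ∀ᶠ x : ℝ in atTop, 2 ≤ x ^ (δ / 2) ∧ 2 ≤ x ^ (δ / 8) := by
    filter_upwards [(tendsto_rpow_atTop (by positivity : 0 < δ / 2)).eventually_ge_atTop 2,
      (tendsto_rpow_atTop (by positivity : 0 < δ / 8)).eventually_ge_atTop 2] with x h1 h2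
    exact ⟨h1, h2⟩
  obtain ⟨x₀, hx₀⟩ := eventually_atTop.mp hev
  obtain ⟨p₂, hp₂⟩ := exists_nat_ge x₀
  refine ⟨κ, hκ, max p₁ p₂, ?_⟩
  intro p _ hpp ι S R hS hE M L hL hV
  have hp : p.Prime := Fact.out
  obtain ⟨g2, gC⟩ := hx₀ p (hp₂.trans (by exact_mod_cast (le_max_right _ _).trans hpp))
  have hp1 : (1 : ℝ) < p := by exact_mod_cast hp.one_lt
  have hp0 : (0 : ℝ) < p := by linarith
  have hmo : ∀ x y : ℝ, x ≤ y → (p : ℝ) ^ x ≤ (p : ℝ) ^ y := fun x y h =>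
    Real.rpow_le_rpow_of_exponent_le hp1.le h
  have hSne : S.Nonempty := by
    rw [← Finset.card_pos]
    have : (0 : ℝ) < S.card := by linarith
    exact_mod_cast this
  have key := h p ((le_max_left _ _).trans hpp) (1 / 2 - δ / 4) ι S R hSne (by
      intro α hα
      refine (hE α hα).trans ?_
      have h1 : (p : ℝ) / 2 * (p : ℝ) ^ (-(1 / 2 - δ / 4)) ≤ S.card * (p : ℝ) ^ (-(1 / 2 - δ / 4)) :=
        mul_le_mul_of_nonneg_right hS (Real.rpow_nonneg hp0.le _)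
      refine le_trans ?_ h1
      have h2 : (p : ℝ) / 2 * (p : ℝ) ^ (-(1 / 2 - δ / 4)) = √(p : ℝ) * (p : ℝ) ^ (δ / 4) / 2 := by
        rw [Real.sqrt_eq_rpow, ← Real.rpow_add hp0, div_mul_eq_mul_div]
        congr 1
        nth_rewrite 1 [← Real.rpow_one (p : ℝ)]
        rw [← Real.rpow_add hp0]
        congr 1
        ring
      rw [h2]
      have h3 : 0 ≤ √(p : ℝ) := Real.sqrt_nonneg _
      have h4 : (p : ℝ) ^ (δ / 4) = (p : ℝ) ^ (δ / 8) * (p : ℝ) ^ (δ / 8) := by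
        rw [← Real.rpow_add hp0]; congr 1; ring
      have h5 : 0 < (p : ℝ) ^ (δ / 8) := Real.rpow_pos_of_pos hp0 _
      have h6 : 2 * (p : ℝ) ^ (δ / 8) ≤ (p : ℝ) ^ (δ / 4) := by rw [h4]; exact mul_le_mul_of_nonneg_right gC h5.le
      have h7 := mul_le_mul_of_nonneg_left h6 h3
      linarith) M L (fun j => (hL j).2) (fun j => (hmo _ _ (by linarith)).trans (hL j).1)
    ((hmo _ _ (by linarith)).trans hV)
  have hQ0 : 0 ≤ ∏ j, ((L j : ℝ) / p) := prod_nonneg fun j _ => by positivity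
  have h4 : (p : ℝ) ^ (-δ) * (p * ∏ j, ((L j : ℝ) / p)) ≤
      (p : ℝ) ^ (-(δ / 2)) * (S.card * ∏ j, ((L j : ℝ) / p)) := by
    rw [← mul_assoc, ← mul_assoc]
    refine mul_le_mul_of_nonneg_right ?_ hQ0
    have h5 : (p : ℝ) ^ (-δ) = (p : ℝ) ^ (-(δ / 2)) * (p : ℝ) ^ (-(δ / 2)) := by
      rw [← Real.rpow_add hp0]; congr 1; ring
    rw [h5, mul_assoc]
    refine mul_le_mul_of_nonneg_left ?_ (Real.rpow_nonneg hp0.le _)
    refine le_trans ?_ hS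
    rw [Real.rpow_neg hp0.le, inv_mul_eq_div, div_le_div_iff₀ (Real.rpow_pos_of_pos hp0 _) (by norm_num)]
    nlinarith
  refine h4.trans (key.trans ?_)
  have h5 := Pool.Agent.N39.RG.fam_to_index S R M L (fun j => (hL j).2) (fun z => GoodS r κ (δ / 2) p z)
  refine le_trans (Nat.cast_le.mpr h5) ?_
  rw [Nat.cast_le]
  apply card_le_card
  intro q hq
  rw [mem_filter] at hq ⊢
  obtain ⟨h6, z, h7, h8⟩ := hq
  refine ⟨h6, z, h7, fun j m hm hsq => ?_⟩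
  obtain ⟨l, hl, hl2, hl3⟩ := h8 j m hm hsq
  exact ⟨l, hl, hl2.trans (hmo _ _ (by linarith)), hl3⟩

/-- **Plane curves.** -/
theorem rec_curveS (δ : ℝ) (hδ : 0 < δ) (hδ1 : δ ≤ 1) :
    ∃ κ : ℝ, 0 < κ ∧ ∃ p₀ : ℕ, ∀ (p : ℕ) [Fact p.Prime], p₀ ≤ p →
    ∀ (d : ℕ) (F : (ZMod p)[X][X]), (d : ℝ) ≤ (p : ℝ) ^ (δ / 50) → TD F d → (∃ i j, 2 ≤ i + j ∧ (F.coeff i).coeff j ≠ 0) → AbsIrr F →
    ∀ (M : Fin 2 → ℤ) (L : Fin 2 → ℕ), (∀ j, (p : ℝ) ^ δ ≤ L j ∧ L j ≤ p) →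
      (p : ℝ) ^ (3 / 2 + δ) ≤ L 0 * L 1 →
    (p : ℝ) ^ (-δ) * (L 0 * L 1 / p) ≤
      (Set.ncard {z : Fin 2 → ℤ | (∀ j, M j < z j ∧ z j ≤ M j + L j) ∧
        evalEval (z 0 : ZMod p) (z 1 : ZMod p) F = 0 ∧ GoodS 2 κ δ p z} : ℝ) := by
  classical
  obtain ⟨κ, hκ, p₁, h⟩ := rec_of_sumsS 2 δ hδ hδ1
  obtain ⟨p₂, h'⟩ := ev_large δ hδ hδ1
  refine ⟨κ, hκ, max p₁ p₂, ?_⟩
  intro p _ hpp d F hdp hF hij hirr M L hL hV
  have hp : p.Prime := Fact.out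
  have hp1 : p₁ ≤ p := (le_max_left _ _).trans hpp
  obtain ⟨a1, a2, a3, a4⟩ := h' p ((le_max_right _ _).trans hpp) d hdp
  have hp0 : (0 : ℝ) < p := by exact_mod_cast hp.pos
  obtain ⟨i, j, hij1, hij2⟩ := hij
  obtain ⟨m, hm2, hmd, hTD, i', hi', htop⟩ := exists_deg hF hij1 hij2
  have hmp : m * m < p := lt_of_le_of_lt (Nat.mul_le_mul (by omega) (by omega)) a4
  have hcard := card_curve hTD hi' htop hm2 hmp hirr
  have hsq : √(p : ℝ) ^ 2 = p := Real.sq_sqrt hp0.le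
  have hsq0 : 0 < √(p : ℝ) := Real.sqrt_pos.2 hp0
  have hmd' : (m : ℝ) ≤ d + 1 := by
    have : (m : ℝ) ≤ d := by exact_mod_cast hmd
    linarith
  have hm4 : (m : ℝ) ^ 4 ≤ (d + 1 : ℝ) ^ 4 := pow_le_pow_left₀ (Nat.cast_nonneg m) hmd' 4
  have hWs : (WC m m (2 * m * m) : ℝ) * √(p : ℝ) ≤ p / 2 := by
    have h1 : (WC m m (2 * m * m) : ℝ) ≤ 9 * (m : ℝ) ^ 4 := by exact_mod_cast WC_le (m := m) (by omega)
    have h2 : 2 * (WC m m (2 * m * m) : ℝ) ≤ √(p : ℝ) := by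
      have : (0 : ℝ) ≤ (d + 1 : ℝ) ^ 4 := by positivity
      linarith
    nlinarith
  have hS : (p : ℝ) / 2 ≤ (ZG F).card := by
    rw [abs_le] at hcard
    linarith [hcard.1]
  have key := h p hp1 (ZMod p × ZMod p) (ZG F) (fun q j => if j = 0 then q.1 else q.2) hS (by
      intro α hα
      have h1 : α 0 ≠ 0 ∨ α 1 ≠ 0 := by
        by_contra hc
        push Not at hc
        apply hα
        funext j
        fin_cases j
        · exact hc.1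
        · exact hc.2
      have h2 := exp_curve hTD hi' htop hm2 hmp hirr (α 0) (α 1) h1
      have h3 : ∀ q : ZMod p × ZMod p, (∑ j : Fin 2, α j * (if j = 0 then q.1 else q.2)) = α 0 * q.1 + α 1 * q.2 := by
        intro q
        rw [Fin.sum_univ_two]
        simp
      simp_rw [h3]
      refine h2.trans (mul_le_mul_of_nonneg_right ?_ hsq0.le)
      have h4 : (EG m m (2 * m * m) : ℝ) ≤ 12 * (m : ℝ) ^ 4 := by exact_mod_cast EG_le (m := m) (by omega)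
      have : (0 : ℝ) ≤ (d + 1 : ℝ) ^ 4 := by positivity
      linarith) M L hL (by
      rw [Fin.prod_univ_two]
      refine le_trans (le_of_eq ?_) hV
      congr 1
      norm_num)
  rw [Fin.prod_univ_two] at key
  have h6 : (p : ℝ) * ((L 0 : ℝ) / p * (L 1 / p)) = L 0 * L 1 / p := by field_simp
  rw [h6] at key
  refine key.trans ?_
  rw [Nat.cast_le]
  set T := (ZG F).filter (fun q => ∃ z : Fin 2 → ℤ,
        (∀ j, M j < z j ∧ z j ≤ M j + L j ∧ ((z j : ℤ) : ZMod p) = if j = 0 then q.1 else q.2) ∧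
        GoodS 2 κ δ p z) with hT
  have hch : ∀ q : ZMod p × ZMod p, ∃ z : Fin 2 → ℤ, q ∈ T → ((∀ j, M j < z j ∧ z j ≤ M j + L j ∧
        ((z j : ℤ) : ZMod p) = if j = 0 then q.1 else q.2) ∧
        GoodS 2 κ δ p z) := by
    intro q
    by_cases hq : q ∈ T
    · rw [hT, Finset.mem_filter] at hq
      obtain ⟨-, z, hz⟩ := hq
      exact ⟨z, fun _ => hz⟩
    · exact ⟨0, fun h => absurd h hq⟩
  choose Z hZ using hch
  rw [← Set.ncard_coe_finset T]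
  refine Set.ncard_le_ncard_of_injOn Z ?_ ?_ ?_
  · intro q hq
    obtain ⟨h1, h2⟩ := hZ q hq
    have hqF : q ∈ ZG F := (Finset.mem_filter.1 hq).1
    refine ⟨fun j => ⟨(h1 j).1, (h1 j).2.1⟩, ?_, ?_⟩
    · have e0 := (h1 0).2.2
      have e1 := (h1 1).2.2
      rw [if_pos rfl] at e0
      rw [if_neg (by decide)] at e1
      rw [e0, e1]
      exact mem_ZG.1 hqF
    · exact h2
  · intro q hq q' hq' heq
    have h1 := (hZ q hq).1
    have h2 := (hZ q' hq').1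
    have a0 := (h1 0).2.2
    have a1 := (h1 1).2.2
    have b0 := (h2 0).2.2
    have b1 := (h2 1).2.2
    rw [heq] at a0 a1
    rw [if_pos rfl] at a0 b0
    rw [if_neg (by decide)] at a1 b1
    exact Prod.ext (a0.symm.trans b0) (a1.symm.trans b1)
  · have : Set.Finite {z : Fin 2 → ℤ | ∀ j, z j ∈ Set.Icc (M j) (M j + L j)} := by
      have h1 : {z : Fin 2 → ℤ | ∀ j, z j ∈ Set.Icc (M j) (M j + L j)} = Set.Icc M (fun j => M j + L j) := by
        ext z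
        simp only [Set.mem_setOf_eq, Set.mem_Icc, Pi.le_def]
        exact ⟨fun h => ⟨fun j => (h j).1, fun j => (h j).2⟩, fun h j => ⟨h.1 j, h.2 j⟩⟩
      rw [h1]
      exact Set.finite_Icc _ _
    exact this.subset fun z hz j => ⟨(hz.1 j).1.le, (hz.1 j).2⟩


end Run7.h914.SQJ
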