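import Pool.Agent.Run7.h914.SQJ.Idx

/-! Joint covering for the squares of all coordinates: counting the events -/

set_option autoImplicit false
set_option linter.all false

namespace Run7.h914.SQJ

open Finset Filter
open Pool.Agent.H256R2.SC (Col supp qq emb emb_mem emb_surj mem_supp prod_nu1 nu1 Asum)
open Pool.Agent.H378R2.QG
open Pool.Agent.Y837.SV
open Pool.Agent.N725.JC
open Pool.Agent.Helper919 (XX XX_apply XX_abs_le)

open scoped Classical

/-- the primes of the support -/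
noncomputable def TT {κ : Type} (PP : Finset ℕ) (d : ℕ) (D : Col (PP.card * d) κ) : Finset (Fin PP.card) :=
  (univ : Finset (Fin PP.card)).filter (fun a => ∃ j : Fin d, D (finProdFinEquiv (a, j)) ≠ none)

theorem qT_le {κ : Type} [Fintype κ] [DecidableEq κ] {PP : Finset ℕ} (hP : ∀ p ∈ PP, p.Prime) {d : ℕ}
    (D : Col (PP.card * d) κ) :
    ((∏ a ∈ TT PP d D, emb PP a : ℕ) : ℝ) ≤ qq (fun i => ((pr PP d i : ℕ) : ℝ)) D := by
  unfold qq
  rw [prod_nu1]
  have h1 : ∀ a : Fin PP.card, (1 : ℝ) ≤ ((emb PP a : ℕ) : ℝ) := fun a => by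
    exact_mod_cast (hP _ (emb_mem PP a)).one_le
  have hmaps : ∀ i ∈ supp D, (finProdFinEquiv.symm i).1 ∈ TT PP d D := by
    intro i hi
    unfold TT
    rw [mem_filter]
    refine ⟨mem_univ _, (finProdFinEquiv.symm i).2, ?_⟩
    rw [Prod.mk.eta, Equiv.apply_symm_apply]
    exact mem_supp.1 hi
  rw [← Finset.prod_fiberwise_of_maps_to hmaps]
  push_cast
  refine Finset.prod_le_prod (fun a _ => by linarith [h1 a]) fun a ha => ?_
  have h2 : ∀ i ∈ (supp D).filter (fun i => (finProdFinEquiv.symm i).1 = a), ((pr PP d i : ℕ) : ℝ) = ((emb PP a : ℕ) : ℝ) := by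
    intro i hi
    rw [mem_filter] at hi
    unfold pr
    rw [hi.2]
  rw [Finset.prod_congr rfl h2, Finset.prod_const]
  apply le_self_pow₀ (h1 a)
  rw [ne_eq, Finset.card_eq_zero, ← ne_eq, ← Finset.nonempty_iff_ne_empty]
  unfold TT at ha
  rw [mem_filter] at ha
  obtain ⟨-, j, hj⟩ := ha
  refine ⟨finProdFinEquiv (a, j), ?_⟩
  rw [mem_filter]
  refine ⟨mem_supp.2 hj, ?_⟩
  rw [Equiv.symm_apply_apply]

section

variable {σ : Type} [Fintype σ] [DecidableEq σ]

theorem nu_eq {PP : Finset ℕ} (hP : ∀ p ∈ PP, p.Prime ∧ p ≠ 2) {d : ℕ} (sh : σ → ℤ)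
    (D : Col (PP.card * d) (Fin d × σ)) :
    nu (gJ PP d sh) D = ∏ a ∈ TT PP d D,
      (((BB d (emb PP a) (fun x => ∀ j, cond sh j (D (finProdFinEquiv (a, j))) (x j))).card : ℝ) /
        ((emb PP a : ℕ) : ℝ) ^ d) := by
  have key : ∀ a : Fin PP.card,
      ((BB d (emb PP a) (fun x => ∀ j, cond sh j (D (finProdFinEquiv (a, j))) (x j))).card : ℝ) /
        ((emb PP a : ℕ) : ℝ) ^ d =
      ∏ j : Fin d, nug (gJ PP d sh (finProdFinEquiv (a, j))) (D (finProdFinEquiv (a, j))) := by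
    intro a
    rw [card_BB_prod]
    push_cast
    have h2 : ((emb PP a : ℕ) : ℝ) ^ d = ∏ _j : Fin d, ((emb PP a : ℕ) : ℝ) := by
      rw [Finset.prod_const, card_univ, Fintype.card_fin]
    rw [h2, ← Finset.prod_div_distrib]
    refine Finset.prod_congr rfl fun j _ => ?_
    exact cond_card hP sh a j _
  unfold nu
  rw [← finProdFinEquiv.prod_comp, Fintype.prod_prod_type]
  rw [Finset.prod_congr rfl fun a _ => (key a).symm]
  symm
  apply Finset.prod_subset (Finset.subset_univ _)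
  intro a _ ha
  rw [key]
  apply Finset.prod_eq_one
  intro j _
  have h3 : D (finProdFinEquiv (a, j)) = none := by
    by_contra hne
    apply ha
    unfold TT
    rw [mem_filter]
    exact ⟨mem_univ _, j, hne⟩
  rw [h3]
  rfl

theorem filt_eq {PP : Finset ℕ} (hP : ∀ p ∈ PP, p.Prime ∧ p ≠ 2) {d : ℕ} {sh : σ → ℤ}
    (hinj : ∀ p ∈ PP, ∀ k l, k ≠ l → ¬ ((p : ℤ) ∣ sh k - sh l))
    (D : Col (PP.card * d) (Fin d × σ)) {α : Type} (A : Finset α) (v : α → Fin d → ℤ) :
    A.filter (fun x => ∀ i, D i ≠ none → colJ PP d sh (v x) i = D i) =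
      A.filter (fun x => ∀ a ∈ TT PP d D,
        (fun (a : Fin PP.card) (y : Fin d → ZMod (emb PP a)) => ∀ j, cond sh j (D (finProdFinEquiv (a, j))) (y j)) a
          (red d (emb PP a) (v x))) := by
  apply Finset.filter_congr
  intro x _
  have e : ∀ (a : Fin PP.card) (j : Fin d) (k : Fin d × σ), D (finProdFinEquiv (a, j)) = some k →
      (colJ PP d sh (v x) (finProdFinEquiv (a, j)) = D (finProdFinEquiv (a, j)) ↔
        cond sh j (D (finProdFinEquiv (a, j))) (red d (emb PP a) (v x) j)) := by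
    intro a j k hk
    rw [hk, colJ_eq hinj]
    unfold cond
    simp only
    rw [co_mk, pr_mk]
    refine and_congr_right fun _ => ?_
    rw [← ZMod.intCast_zmod_eq_zero_iff_dvd]
    unfold Pool.Agent.Y837.SV.red
    push_cast
    exact Iff.rfl
  constructor
  · intro h a _ j
    cases hD : D (finProdFinEquiv (a, j)) with
    | none => exact trivial
    | some k =>
      have h1 := (e a j k hD).1 (h _ (by rw [hD]; exact Option.some_ne_none k))
      rw [hD] at h1
      exact h1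
  · intro h i hi
    obtain ⟨⟨a, j⟩, rfl⟩ := finProdFinEquiv.surjective i
    obtain ⟨k, hk⟩ := Option.ne_none_iff_exists'.mp hi
    apply (e a j k hk).2
    apply h a
    unfold TT
    rw [mem_filter]
    exact ⟨mem_univ _, j, hi⟩

theorem event {PP : Finset ℕ} (hP : ∀ p ∈ PP, p.Prime ∧ p ≠ 2) {d : ℕ} {sh : σ → ℤ}
    (hinj : ∀ p ∈ PP, ∀ k l, k ≠ l → ¬ ((p : ℤ) ∣ sh k - sh l))
    (D : Col (PP.card * d) (Fin d × σ)) {α : Type} (A : Finset α) (v : α → Fin d → ℤ) (N E : ℝ)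
    (hA : ∀ c : Fin d → ℤ, |((A.filter (fun x => ∀ j, ((∏ a ∈ TT PP d D, emb PP a : ℕ) : ℤ) ∣ v x j - c j)).card : ℝ) -
      N / ((∏ a ∈ TT PP d D, emb PP a : ℕ) : ℝ) ^ d| ≤ E) :
    |((A.filter (fun x => ∀ i, D i ≠ none → colJ PP d sh (v x) i = D i)).card : ℝ) - N * nu (gJ PP d sh) D| ≤
      ((∏ a ∈ TT PP d D, emb PP a : ℕ) : ℝ) ^ d * E := by
  have h1 := fcount d (TT PP d D) (fun a => emb PP a) (fun a _ => (hP _ (emb_mem PP a)).1)
    (fun a _ b _ hab h => hab ((emb PP).injective h))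
    (fun a y => ∀ j, cond sh j (D (finProdFinEquiv (a, j))) (y j)) A v N E hA
  rw [filt_eq hP hinj, nu_eq hP]
  convert h1

end

end Run7.h914.SQJ
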