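import Pool.Agent.Run7.h914.SQJ.Ev

/-! Joint covering for the squares: the count -/

set_option autoImplicit false
set_option linter.all false

namespace Run7.h914.SQJ

open Finset Filter
open Pool.Agent.H256R2.SC (Col supp qq emb emb_mem emb_surj mem_supp prod_nu1 nu1 Asum ev_facts scales)
open Pool.Agent.H378R2.QG
open Pool.Agent.Y837.SV
open Pool.Agent.N725.JC
open Pool.Agent.Helper919 (XX XX_apply XX_abs_le)

open scoped Classical

theorem num_fin3 {L u z N : ℝ} {n J : ℕ} (hL : 1000 ≤ L) (hu0 : 0 ≤ u)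
    (hu : u ≤ Real.exp (L / 100)) (hz0 : 0 ≤ z) (hn1 : (n:ℝ) + 1 ≤ z ^ 2) (hzJ : z ^ J ≤ Real.exp (45 * L / 1000))
    (hN : 0 < N) :
    N * Real.exp (-(35 * L / 100)) * (9 * (Real.exp (L / 40)) ^ 4 * (1 + u * ((n:ℝ) + 1) ^ J)) < N / 8 := by
  have hLpos : 0 < L := by linarith
  have hn0 : (0:ℝ) ≤ (n:ℝ) + 1 := add_nonneg (Nat.cast_nonneg n) zero_le_one
  have hnJ0 : (0:ℝ) ≤ ((n:ℝ) + 1) ^ J := pow_nonneg hn0 J
  have h1 : ((n:ℝ) + 1) ^ J ≤ Real.exp (90 * L / 1000) := by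
    calc ((n:ℝ) + 1) ^ J ≤ (z ^ 2) ^ J := pow_le_pow_left₀ hn0 hn1 J
      _ = z ^ J * z ^ J := by rw [← pow_mul, mul_comm, pow_mul, sq]
      _ ≤ Real.exp (45 * L / 1000) * Real.exp (45 * L / 1000) :=
        mul_le_mul hzJ hzJ (pow_nonneg hz0 J) (Real.exp_pos _).le
      _ = Real.exp (90 * L / 1000) := by rw [← Real.exp_add]; congr 1; ring
  have h2 : u * ((n:ℝ) + 1) ^ J ≤ Real.exp (L / 100) * Real.exp (90 * L / 1000) :=
    mul_le_mul hu h1 hnJ0 (Real.exp_pos _).le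
  have h3 : (1:ℝ) ≤ Real.exp (L / 10) := Real.one_le_exp (by positivity)
  have h4 : 1 + u * ((n:ℝ) + 1) ^ J ≤ 2 * Real.exp (L / 10) := by
    have : Real.exp (L / 100) * Real.exp (90 * L / 1000) = Real.exp (L / 10) := by
      rw [← Real.exp_add]; congr 1; ring
    linarith
  have h5 : (Real.exp (L / 40)) ^ 4 = Real.exp (L / 10) := by
    rw [← Real.exp_nat_mul]; congr 1; push_cast; ring
  have h6 : Real.exp (-(35 * L / 100)) * (9 * (Real.exp (L / 40)) ^ 4 * (1 + u * ((n:ℝ) + 1) ^ J)) ≤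
      Real.exp (-(35 * L / 100)) * (9 * Real.exp (L / 10) * (2 * Real.exp (L / 10))) := by
    rw [h5]
    have h50 : (0:ℝ) ≤ 9 * Real.exp (L / 10) :=
      mul_nonneg (by norm_num) (Real.exp_pos _).le
    exact mul_le_mul_of_nonneg_left (mul_le_mul_of_nonneg_left h4 h50) (Real.exp_pos _).le
  have h7 : Real.exp (-(35 * L / 100)) * (9 * Real.exp (L / 10) * (2 * Real.exp (L / 10))) =
      18 * Real.exp (-(15 * L / 100)) := by
    have : Real.exp (-(35 * L / 100)) * Real.exp (L / 10) * Real.exp (L / 10) =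
        Real.exp (-(15 * L / 100)) := by
      rw [← Real.exp_add, ← Real.exp_add]; congr 1; ring
    calc _ = 18 * (Real.exp (-(35 * L / 100)) * Real.exp (L / 10) * Real.exp (L / 10)) := by
          ring
      _ = _ := by rw [this]
  have h8 : 18 * Real.exp (-(15 * L / 100)) < 1 / 8 := by
    have e1 : Real.exp (-(15 * L / 100)) * Real.exp (15 * L / 100) = 1 := by
      rw [← Real.exp_add]; simp
    have e2 : (144:ℝ) < Real.exp (15 * L / 100) := by
      have := Real.add_one_le_exp (15 * L / 100)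
      linarith
    have := Real.exp_pos (-(15 * L / 100))
    nlinarith
  have h9 : N * (Real.exp (-(35 * L / 100)) * (9 * (Real.exp (L / 40)) ^ 4 * (1 + u * ((n:ℝ) + 1) ^ J))) <
      N * (1 / 8) := mul_lt_mul_of_pos_left (lt_of_le_of_lt (h6.trans h7.le) h8) hN
  calc _ = N * (Real.exp (-(35 * L / 100)) * (9 * (Real.exp (L / 40)) ^ 4 * (1 + u * ((n:ℝ) + 1) ^ J))) := by ring
    _ < N * (1 / 8) := h9
    _ = N / 8 := by ring

section

variable {σ : Type} [Fintype σ] [DecidableEq σ]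

theorem hev {d : ℕ} {PP : Finset ℕ} (hPprime2 : ∀ p ∈ PP, p.Prime ∧ p ≠ 2) {sh : σ → ℤ}
    (hinj : ∀ p ∈ PP, ∀ k l, k ≠ l → ¬ ((p : ℤ) ∣ sh k - sh l)) {L : ℝ} (hL : 0 ≤ L) {Z P : ℕ}
    (hZ : (Z : ℝ) = Real.exp L) (hP0 : 0 < P) (hPX : (P : ℝ) ≤ Real.exp (1 / 2 * L))
    (hPy : ∀ p ∈ PP, L ^ 2 < (p : ℝ)) (hPp : ∀ p : ℕ, p.Prime → p ∣ P → (p : ℝ) ≤ L ^ 2) (b0 : Fin d → ℤ)
    {α : Type} (s : Finset α) (v : α → Fin d → ℤ) (hs : Fam d Z s v) {N : ℝ} (hN : N = s.card / (P : ℝ) ^ d)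
    {A : Finset α} (hA : A = s.filter (fun x => ∀ j, (P : ℤ) ∣ v x j - b0 j))
    (D : Col (PP.card * d) (Fin d × σ)) (hD1 : qq (fun i => ((pr PP d i : ℕ) : ℝ)) D ≤ Real.exp (L / 10)) :
    |((A.filter (fun a => ∀ i, D i ≠ none → colJ PP d sh (v a) i = D i)).card : ℝ) -
        N * nu (gJ PP d sh) D| ≤ N * Real.exp (-(35 * L / 100)) := by
  have hPprime : ∀ p ∈ PP, p.Prime := fun p hp => (hPprime2 p hp).1
  have hPR : (0 : ℝ) < P := by exact_mod_cast hP0
  obtain ⟨hs1, hs2⟩ := hs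
  have hscard : (0 : ℝ) < s.card := by exact_mod_cast hs1.card_pos
  obtain ⟨q, hq⟩ : ∃ q : ℕ, q = ∏ a ∈ TT PP d D, emb PP a := ⟨_, rfl⟩
  have hqpos : 0 < q := by
    rw [hq]
    exact Finset.prod_pos fun i _ => (hPprime _ (emb_mem PP i)).pos
  have hqR : (0 : ℝ) < (q : ℝ) := by exact_mod_cast hqpos
  have hqX : (q : ℝ) ≤ Real.exp (L / 10) := by
    have h1 := qT_le hPprime D
    rw [← hq] at h1
    exact h1.trans hD1
  have hcopP : Nat.Coprime P q := by
    rw [hq, Nat.coprime_iff_gcd_eq_one]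
    by_contra hne
    obtain ⟨p, hp, hpd⟩ := Nat.exists_prime_and_dvd hne
    have h1 : p ∣ P := hpd.trans (Nat.gcd_dvd_left _ _)
    have h2 : p ∣ ∏ a ∈ TT PP d D, emb PP a := hpd.trans (Nat.gcd_dvd_right _ _)
    rw [Prime.dvd_finsetProd_iff hp.prime] at h2
    obtain ⟨i, _, hi2⟩ := h2
    have h3 : p = emb PP i := (Nat.prime_dvd_prime_iff_eq hp (hPprime _ (emb_mem PP i))).1 hi2
    have h4 := hPp p hp h1
    have h5 := hPy _ (emb_mem PP i)
    rw [← h3] at h5
    linarith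
  have hPqX : ((P * q : ℕ) : ℝ) ≤ Real.exp (6 / 10 * L) := by
    push_cast
    calc (P : ℝ) * q ≤ Real.exp (1 / 2 * L) * Real.exp (L / 10) :=
          mul_le_mul hPX hqX hqR.le (Real.exp_pos _).le
      _ = Real.exp (6 / 10 * L) := by rw [← Real.exp_add]; congr 1; ring
  have hPqZ : P * q ≤ Z := by
    have h1 : ((P * q : ℕ) : ℝ) ≤ (Z : ℝ) := by
      rw [hZ]
      exact hPqX.trans (Real.exp_le_exp.2 (by linarith))
    exact_mod_cast h1
  obtain ⟨u', w', huw⟩ := Nat.isCoprime_iff_coprime.2 hcopP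
  have h1 := event hPprime2 hinj D A v N (s.card / (Z : ℝ) ^ (d + 1)) (by
      intro c
      rw [← hq]
      have h5 : A.filter (fun x => ∀ j, (q : ℤ) ∣ v x j - c j) =
          s.filter (fun x => ∀ j, ((P * q : ℕ) : ℤ) ∣ v x j - (b0 j * (w' * q) + c j * (u' * P))) := by
        rw [hA, Finset.filter_filter]
        apply Finset.filter_congr
        intro x _
        have hiff : ∀ j, ((P : ℤ) ∣ v x j - b0 j ∧ (q : ℤ) ∣ v x j - c j) ↔
            ((P * q : ℕ) : ℤ) ∣ v x j - (b0 j * (w' * q) + c j * (u' * P)) := by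
          intro j
          have e1 : v x j - (b0 j * (w' * q) + c j * (u' * P)) =
              (v x j - b0 j) + (b0 j - c j) * u' * P := by
            linear_combination (-(b0 j : ℤ)) * huw
          have e2 : v x j - (b0 j * (w' * q) + c j * (u' * P)) =
              (v x j - c j) + (c j - b0 j) * w' * q := by
            linear_combination (-(c j : ℤ)) * huw
          constructor
          · rintro ⟨h5, h6⟩
            push_cast
            refine IsCoprime.mul_dvd (Nat.isCoprime_iff_coprime.2 hcopP) ?_ ?_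
            · rw [e1]
              exact dvd_add h5 (Dvd.intro_left _ rfl)
            · rw [e2]
              exact dvd_add h6 (Dvd.intro_left _ rfl)
          · intro h5
            push_cast at h5
            constructor
            · have h6 : (P : ℤ) ∣ v x j - (b0 j * (w' * q) + c j * (u' * P)) :=
                (dvd_mul_right _ _).trans h5
              rw [e1] at h6
              exact (dvd_add_left (Dvd.intro_left _ rfl)).1 h6
            · have h6 : (q : ℤ) ∣ v x j - (b0 j * (w' * q) + c j * (u' * P)) :=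
                (dvd_mul_left _ _).trans h5
              rw [e2] at h6
              exact (dvd_add_left (Dvd.intro_left _ rfl)).1 h6
        constructor
        · rintro ⟨h5, h6⟩ j
          exact (hiff j).1 ⟨h5 j, h6 j⟩
        · intro h
          exact ⟨fun j => ((hiff j).2 (h j)).1, fun j => ((hiff j).2 (h j)).2⟩
      rw [h5]
      have h6 : N / (q : ℝ) ^ d = s.card / ((P * q : ℕ) : ℝ) ^ d := by
        rw [hN]
        push_cast
        rw [mul_pow, div_div]
      rw [h6]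
      exact hs2 (P * q) (Nat.mul_pos hP0 hqpos) hPqZ _)
  refine h1.trans ?_
  rw [← hq]
  have h2 : (P : ℝ) ^ d * (q : ℝ) ^ d ≤ (Z : ℝ) ^ (d + 1) * Real.exp (-(35 * L / 100)) := by
    have e1 : (P : ℝ) ^ d * (q : ℝ) ^ d = ((P * q : ℕ) : ℝ) ^ d := by push_cast; rw [mul_pow]
    have e2 : ((P * q : ℕ) : ℝ) ^ d ≤ (Z : ℝ) ^ d := by
      apply pow_le_pow_left₀ (Nat.cast_nonneg _)
      exact_mod_cast hPqZ
    have e3 : (1 : ℝ) ≤ Z * Real.exp (-(35 * L / 100)) := by
      rw [hZ, ← Real.exp_add]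
      exact Real.one_le_exp (by linarith)
    rw [e1, pow_succ, mul_assoc]
    calc ((P * q : ℕ) : ℝ) ^ d ≤ (Z : ℝ) ^ d * 1 := by rw [mul_one]; exact e2
      _ ≤ (Z : ℝ) ^ d * (Z * Real.exp (-(35 * L / 100))) :=
        mul_le_mul_of_nonneg_left e3 (by positivity)
  have hZ0 : (0 : ℝ) < (Z : ℝ) ^ (d + 1) := by
    rw [hZ]
    positivity
  have hPd : (0 : ℝ) < (P : ℝ) ^ d := by positivity
  rw [hN, ← mul_div_assoc, div_mul_eq_mul_div, div_le_div_iff₀ hZ0 hPd]
  calc (q : ℝ) ^ d * s.card * (P : ℝ) ^ d = s.card * ((P : ℝ) ^ d * (q : ℝ) ^ d) := by ring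
    _ ≤ s.card * ((Z : ℝ) ^ (d + 1) * Real.exp (-(35 * L / 100))) :=
      mul_le_mul_of_nonneg_left h2 hscard.le
    _ = s.card * Real.exp (-(35 * L / 100)) * (Z : ℝ) ^ (d + 1) := by ring

end

end Run7.h914.SQJ
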