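import Pool.Agent.H378R2.QG.V
import Pool.Agent.N725.JC.Mono

/-! Joint covering for the squares of all coordinates: the indices (prime, coordinate) -/

set_option autoImplicit false
set_option linter.all false

namespace Run7.h914.SQJ

open Finset Filter
open Pool.Agent.H256R2.SC (Col supp qq emb emb_mem emb_surj mem_supp prod_nu1 nu1 Asum)
open Pool.Agent.H378R2.QG
open Pool.Agent.Y837.SV
open Pool.Agent.N725.JC
open Pool.Agent.Helper919 (XX XX_apply XX_abs_le)

open scoped Classical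

/-- the prime of an index -/
noncomputable def pr (PP : Finset ℕ) (d : ℕ) (i : Fin (PP.card * d)) : ℕ :=
  emb PP (finProdFinEquiv.symm i).1

/-- the coordinate of an index -/
def co (PP : Finset ℕ) (d : ℕ) (i : Fin (PP.card * d)) : Fin d := (finProdFinEquiv.symm i).2

theorem pr_mk (PP : Finset ℕ) (d : ℕ) (a : Fin PP.card) (j : Fin d) :
    pr PP d (finProdFinEquiv (a, j)) = emb PP a := by
  unfold pr
  rw [Equiv.symm_apply_apply]

theorem co_mk (PP : Finset ℕ) (d : ℕ) (a : Fin PP.card) (j : Fin d) :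
    co PP d (finProdFinEquiv (a, j)) = j := by
  unfold co
  rw [Equiv.symm_apply_apply]

theorem pr_mem (PP : Finset ℕ) (d : ℕ) (i : Fin (PP.card * d)) : pr PP d i ∈ PP := emb_mem PP _

theorem sum_ix (PP : Finset ℕ) (d : ℕ) (f : ℕ → Fin d → ℝ) :
    ∑ i : Fin (PP.card * d), f (pr PP d i) (co PP d i) = ∑ a : Fin PP.card, ∑ j : Fin d, f (emb PP a) j := by
  rw [← finProdFinEquiv.sum_comp, Fintype.sum_prod_type]
  refine Finset.sum_congr rfl fun a _ => Finset.sum_congr rfl fun j _ => ?_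
  rw [pr_mk, co_mk]

theorem Asum_ge (PP : Finset ℕ) (d : ℕ) (j : Fin d) (w : ℕ → ℝ) (hw : ∀ p ∈ PP, 0 ≤ w p) (x : ℝ) :
    ∑ s ∈ (PP.powerset.filter (fun s : Finset ℕ => s.Nonempty ∧ ∏ p ∈ s, (p : ℝ) ≤ x)), ∏ p ∈ s, w p ≤
      Asum (fun i => ((pr PP d i : ℕ) : ℝ)) (fun i => if co PP d i = j then w (pr PP d i) else 0) x := by
  rw [← Asum_enum PP w x]
  unfold Asum
  let φ : Fin PP.card ↪ Fin (PP.card * d) :=
    ⟨fun a => finProdFinEquiv (a, j), fun a b h => by
      have := finProdFinEquiv.injective h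
      exact (Prod.mk.inj this).1⟩
  have hφ : ∀ a, φ a = finProdFinEquiv (a, j) := fun a => rfl
  have h1 : ∑ s : Finset (Fin PP.card) with s.Nonempty ∧ ∏ i ∈ s, ((emb PP i : ℕ) : ℝ) ≤ x, ∏ i ∈ s, w (emb PP i) =
      ∑ s ∈ ((univ : Finset (Finset (Fin PP.card))).filter
        (fun s => s.Nonempty ∧ ∏ i ∈ s, ((emb PP i : ℕ) : ℝ) ≤ x)).map (Finset.mapEmbedding φ).toEmbedding,
        ∏ i ∈ s, (if co PP d i = j then w (pr PP d i) else 0) := by
    rw [Finset.sum_map]
    refine Finset.sum_congr rfl fun s _ => ?_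
    have e : (Finset.mapEmbedding φ).toEmbedding s = s.map φ := rfl
    rw [e, Finset.prod_map]
    refine Finset.prod_congr rfl fun a _ => ?_
    rw [hφ, co_mk, pr_mk, if_pos rfl]
  rw [h1]
  refine Finset.sum_le_sum_of_subset_of_nonneg ?_ ?_
  · intro s hs
    rw [Finset.mem_map] at hs
    obtain ⟨t, ht, rfl⟩ := hs
    have e : (Finset.mapEmbedding φ).toEmbedding t = t.map φ := rfl
    rw [Finset.mem_filter] at ht ⊢
    rw [e]
    refine ⟨mem_univ _, ht.2.1.map, ?_⟩
    rw [Finset.prod_map]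
    refine le_trans (le_of_eq ?_) ht.2.2
    refine Finset.prod_congr rfl fun a _ => ?_
    rw [hφ, pr_mk]
  · intro s _ _
    refine Finset.prod_nonneg fun i _ => ?_
    split_ifs
    · exact hw _ (pr_mem PP d i)
    · exact le_rfl

theorem card_BB_prod (d p : ℕ) (c : Fin d → ZMod p → Prop) :
    (BB d p (fun x => ∀ j, c j (x j))).card =
      ∏ j, ((range p).filter (fun b : ℕ => c j ((b : ℕ) : ZMod p))).card := by
  rw [← Fintype.card_piFinset]
  congr 1
  ext b
  unfold BB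
  simp only [mem_filter, Fintype.mem_piFinset]
  constructor
  · rintro ⟨h1, h2⟩ j
    exact ⟨h1 j, h2 j⟩
  · intro h
    exact ⟨fun j => (h j).1, fun j => (h j).2⟩

theorem card_roots {p : ℕ} (hp : p.Prime) (hp2 : p ≠ 2) (h : ℤ) :
    (((range p).filter (fun b : ℕ => ((b : ℕ) : ZMod p) ^ 2 + (h : ZMod p) = 0)).card : ℝ) =
      1 + XX (-h) p := by
  have : Fact p.Prime := ⟨hp⟩
  have hX : XX (-h) p = ((legendreSym p (-h) : ℤ) : ℝ) := by
    rw [XX_apply, if_pos (hp.odd_of_ne_two hp2), jacobiSym.legendreSym.to_jacobiSym]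
  have h1 := legendreSym.card_sqrts p hp2 (-h)
  have h4 : ((range p).filter (fun b : ℕ => ((b : ℕ) : ZMod p) ^ 2 + (h : ZMod p) = 0)).card =
      ({x : ZMod p | x ^ 2 = ((-h : ℤ) : ZMod p)}.toFinset).card := by
    refine Finset.card_bij (fun a _ => (a : ZMod p)) ?_ ?_ ?_
    · intro a ha
      rw [Finset.mem_filter] at ha
      rw [Set.mem_toFinset]
      show ((a : ℕ) : ZMod p) ^ 2 = ((-h : ℤ) : ZMod p)
      push_cast
      linear_combination ha.2
    · intro a ha a' ha' h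
      rw [Finset.mem_filter, Finset.mem_range] at ha ha'
      have h5 := (ZMod.natCast_eq_natCast_iff' a a' p).1 h
      rwa [Nat.mod_eq_of_lt ha.1, Nat.mod_eq_of_lt ha'.1] at h5
    · intro x hx
      rw [Set.mem_toFinset] at hx
      have hx' : x ^ 2 = ((-h : ℤ) : ZMod p) := hx
      refine ⟨x.val, ?_, ZMod.natCast_zmod_val x⟩
      rw [Finset.mem_filter, Finset.mem_range]
      refine ⟨ZMod.val_lt x, ?_⟩
      rw [ZMod.natCast_zmod_val, hx']
      push_cast
      ring
  rw [h4, hX]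
  have h6 := congrArg (fun z : ℤ => (z : ℝ)) h1
  simp only [Int.cast_natCast, Int.cast_add, Int.cast_one] at h6
  rw [h6]
  ring

section

variable {σ : Type} [Fintype σ] [DecidableEq σ]

/-- the colouring: the index `(p, j)` kills the shift `(j, h)` at `v` if `p ∣ v j ^ 2 + h` -/
noncomputable def colJ (PP : Finset ℕ) (d : ℕ) (sh : σ → ℤ) (v : Fin d → ℤ) : Col (PP.card * d) (Fin d × σ) :=
  fun i => if h : ∃ k : σ, ((pr PP d i : ℕ) : ℤ) ∣ v (co PP d i) ^ 2 + sh k then some (co PP d i, h.choose) else none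

theorem colJ_eq {PP : Finset ℕ} {d : ℕ} {sh : σ → ℤ}
    (hinj : ∀ p ∈ PP, ∀ k l, k ≠ l → ¬ ((p : ℤ) ∣ sh k - sh l)) (v : Fin d → ℤ) (i : Fin (PP.card * d))
    (k : Fin d × σ) : colJ PP d sh v i = some k ↔
      k.1 = co PP d i ∧ ((pr PP d i : ℕ) : ℤ) ∣ v (co PP d i) ^ 2 + sh k.2 := by
  unfold colJ
  constructor
  · intro h
    split_ifs at h with h1
    have h2 := Option.some.inj h
    have h3 := h1.choose_spec
    rw [← h2]
    exact ⟨rfl, h3⟩
  · rintro ⟨h0, h⟩
    have h1 : ∃ k : σ, ((pr PP d i : ℕ) : ℤ) ∣ v (co PP d i) ^ 2 + sh k := ⟨k.2, h⟩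
    rw [dif_pos h1]
    congr 1
    refine Prod.ext h0.symm ?_
    by_contra hne
    apply hinj (pr PP d i) (pr_mem PP d i) h1.choose k.2 hne
    have h3 := h1.choose_spec
    have h4 := dvd_sub h3 h
    have h5 : v (co PP d i) ^ 2 + sh h1.choose - (v (co PP d i) ^ 2 + sh k.2) = sh h1.choose - sh k.2 := by ring
    rwa [h5] at h4

/-- the densities -/
noncomputable def gJ (PP : Finset ℕ) (d : ℕ) (sh : σ → ℤ) (i : Fin (PP.card * d)) (k : Fin d × σ) : ℝ :=
  if co PP d i = k.1 then (1 + XX (-sh k.2) (pr PP d i)) / ((pr PP d i : ℕ) : ℝ) else 0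

/-- the condition of one coordinate -/
def cond {d p : ℕ} (sh : σ → ℤ) (j : Fin d) (o : Option (Fin d × σ)) (x : ZMod p) : Prop :=
  match o with
  | none => True
  | some k => k.1 = j ∧ x ^ 2 + (sh k.2 : ZMod p) = 0

theorem cond_card {PP : Finset ℕ} (hP : ∀ p ∈ PP, p.Prime ∧ p ≠ 2) {d : ℕ} (sh : σ → ℤ) (a : Fin PP.card)
    (j : Fin d) (o : Option (Fin d × σ)) :
    (((range (emb PP a)).filter (fun b : ℕ => cond sh j o ((b : ℕ) : ZMod (emb PP a)))).card : ℝ) / (emb PP a : ℕ) =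
      nug (gJ PP d sh (finProdFinEquiv (a, j))) o := by
  obtain ⟨hp, hp2⟩ := hP _ (emb_mem PP a)
  have hp0 : ((emb PP a : ℕ) : ℝ) ≠ 0 := by exact_mod_cast hp.ne_zero
  cases o with
  | none =>
    simp only [cond, nug]
    rw [Finset.filter_true, card_range, div_self hp0]
  | some k =>
    simp only [cond, nug, gJ]
    rw [co_mk, pr_mk]
    by_cases h : j = k.1
    · rw [if_pos h, ← card_roots hp hp2]
      congr 3
      ext b
      simp only [h, true_and]
    · rw [if_neg h]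
      have : (range (emb PP a)).filter (fun b : ℕ => k.1 = j ∧
          ((b : ℕ) : ZMod (emb PP a)) ^ 2 + (sh k.2 : ZMod (emb PP a)) = 0) = ∅ := by
        rw [Finset.filter_eq_empty_iff]
        rintro b _ ⟨h1, _⟩
        exact h h1.symm
      rw [this, card_empty, Nat.cast_zero, zero_div]

end

end Run7.h914.SQJ
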