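import Pool.Agent.Run7.h914.SQJ.Cov
import Pool.Agent.H74R2.QG.QR
import Pool.Agent.H378R2.QG.Main
import Pool.Agent.N39.RG.MainE

/-! Composite neighbourhoods of record length around the squares of all coordinates -/

set_option autoImplicit false
set_option linter.all false

namespace Run7.h914.SQJ

open Finset Filter
open Pool.Agent.H256R2.SC (ff)
open Pool.Agent.H256R2.SC.LG (ana exists_crt)
open Pool.Agent.H378R2.QG (w0 ev_pow cl survivors)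
open Pool.Agent.N725.JC (Fam fam_count)

open scoped Classical

theorem smono (d : ℕ) : ∃ c : ℝ, 0 < c ∧ ∃ Z₀ : ℝ, ∀ Z : ℕ, Z₀ ≤ Z → ∀ (α : Type) (s : Finset α)
    (w : α → Fin d → ℤ), Fam d Z s w → ∃ a ∈ s, ∀ j, ∀ h : ℤ, |(h : ℝ)| ≤ c * ff Z → ¬ IsSquare (-h) →
        ∃ p : ℕ, p.Prime ∧ (p : ℝ) ≤ (Z : ℝ) ^ (1 / 10 : ℝ) ∧ (p : ℤ) ∣ w a j ^ 2 + h := by
  obtain ⟨c₁, hc₁, X₁, hcov⟩ := scov0 d
  obtain ⟨C, hC, y₀, hsur⟩ := survivors
  obtain ⟨c, hc, X₂, hana⟩ := ana (y₀ := y₀) hc₁ hC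
  obtain ⟨X₃, hev⟩ := ev_pow
  refine ⟨c, hc, max (max X₁ X₂) X₃, fun Z hZ α s w hs' => ?_⟩
  obtain ⟨R, hR⟩ : ∃ R : ℕ, R = ⌊c * ff Z⌋₊ := ⟨_, rfl⟩
  obtain ⟨L, hL⟩ : ∃ L : ℝ, L = Real.log Z := ⟨_, rfl⟩
  obtain ⟨y, hy⟩ : ∃ y : ℝ, y = Real.log Z / 10 := ⟨_, rfl⟩
  obtain ⟨a1, a2, a3, a4, a5, a6, a7, a8, a9, a10, a11, a12, a13, a14, a15, a16, a17⟩ :=
    hana Z (((le_max_right _ _).trans (le_max_left _ _)).trans hZ) y _ hy rfl R hR
  obtain ⟨b1, b2, b3, b4⟩ := hev Z ((le_max_right _ _).trans hZ)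
  have hcovZ := hcov Z (((le_max_left _ _).trans (le_max_left _ _)).trans hZ)
  have hs := hsur y a3 R a5 a7
  rw [← hL] at b1 b3
  have hZ0 : (0 : ℝ) < Z := by
    have h1 : (1 : ℝ) ≤ (Z : ℝ) ^ (1 / 20 : ℝ) := b4
    by_contra hcon
    push Not at hcon
    have h2 : (Z : ℝ) = 0 := le_antisymm hcon (Nat.cast_nonneg _)
    rw [h2, Real.zero_rpow (by norm_num)] at h1
    linarith
  -- the small primes
  obtain ⟨P, hP⟩ : ∃ P : ℕ, P = primorial ⌊y⌋₊ := ⟨_, rfl⟩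
  have hP0 : 0 < P := by rw [hP]; exact primorial_pos _
  obtain ⟨b0, hb0, hb0'⟩ := exists_crt ⌊y⌋₊ (cl y)
  -- the survivors
  obtain ⟨S, hS⟩ : ∃ S : Finset ℤ, S = ((Finset.Icc (-(R : ℤ)) R).filter (fun h => h ≠ 0 ∧
      ∀ p : ℕ, p.Prime → (p : ℝ) ≤ y → ¬ ((p : ℤ) ∣ (cl y p : ℤ) ^ 2 + h))).filter
        (fun h => ¬ IsSquare (-h)) := ⟨_, rfl⟩
  have hScard : (S.card : ℝ) ≤ c₁ * Real.log Z := by
    refine le_trans ?_ (hs.trans a8)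
    rw [hS]
    exact_mod_cast Finset.card_filter_le _ _
  have hSb : ∀ h ∈ S, |(h : ℝ)| ≤ (Real.log Z) ^ (11 / 10 : ℝ) ∧ ¬ IsSquare (-h) := by
    intro h hh
    rw [hS, Finset.mem_filter, Finset.mem_filter, Finset.mem_Icc] at hh
    refine ⟨?_, hh.2⟩
    have h1 : |h| ≤ (R : ℤ) := abs_le.mpr hh.1.1
    have h2 : |(h : ℝ)| ≤ (R : ℝ) := by exact_mod_cast h1
    refine h2.trans (a7.trans ?_)
    rw [hy]
    exact b2
  obtain ⟨a, ha, hx2, hx3⟩ := hcovZ {h // h ∈ S} (fun k => k.1) Subtype.val_injective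
    (fun k => (hSb k.1 k.2).1) (fun k => (hSb k.1 k.2).2)
    (by rw [Fintype.card_coe]; exact hScard) P hP0 (by rw [hP]; exact a11)
    (by
      intro p hp hpP
      rw [hP, primorial, Prime.dvd_finsetProd_iff hp.prime] at hpP
      obtain ⟨p', hp', hpp'⟩ := hpP
      rw [Finset.mem_filter, Finset.mem_range] at hp'
      have h4 : p = p' := (Nat.prime_dvd_prime_iff_eq hp hp'.2).1 hpp'
      have h5 : (p : ℝ) ≤ y := by
        have : p ≤ ⌊y⌋₊ := by omega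
        calc (p : ℝ) ≤ (⌊y⌋₊ : ℝ) := by exact_mod_cast this
          _ ≤ y := Nat.floor_le a4
      linarith)
    (fun _ => (b0 : ℤ)) α s w hs'
  refine ⟨a, ha, fun j h hh hsq => ?_⟩
  have hyZ : y ≤ (Z : ℝ) ^ (1 / 10 : ℝ) := by
    have h1 := Real.log_le_rpow_div hZ0.le (show (0 : ℝ) < 1 / 10 by norm_num)
    rw [hy]
    linarith
  have hhR : |h| ≤ (R : ℤ) := by
    have h1 : (h.natAbs : ℝ) ≤ c * ff Z := by
      rw [Nat.cast_natAbs]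
      push_cast
      exact hh
    have h2 : h.natAbs ≤ R := by rw [hR]; exact Nat.le_floor h1
    rw [Int.abs_eq_natAbs]
    exact_mod_cast h2
  have h0 : h ≠ 0 := by
    rintro rfl
    apply hsq
    rw [neg_zero]
    exact ⟨0, by ring⟩
  by_cases hsm : ∀ p : ℕ, p.Prime → (p : ℝ) ≤ y → ¬ ((p : ℤ) ∣ (cl y p : ℤ) ^ 2 + h)
  · have hmem : h ∈ S := by
      rw [hS, Finset.mem_filter, Finset.mem_filter, Finset.mem_Icc]
      exact ⟨⟨abs_le.mp hhR, h0, hsm⟩, hsq⟩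
    obtain ⟨p, hp1, hp2, hp3, hp4⟩ := hx3 j ⟨h, hmem⟩
    exact ⟨p, hp1, hp3, hp4⟩
  · push Not at hsm
    obtain ⟨p, hp1, hp2, hp3⟩ := hsm
    have hpy : p ≤ ⌊y⌋₊ := Nat.le_floor hp2
    have hpP : (p : ℤ) ∣ (P : ℤ) := by
      rw [hP, primorial]
      have : p ∈ (Finset.range (⌊y⌋₊ + 1)).filter Nat.Prime := by
        rw [Finset.mem_filter, Finset.mem_range]
        exact ⟨by omega, hp1⟩
      exact_mod_cast Finset.dvd_prod_of_mem _ this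
    have h1 : (p : ℤ) ∣ w a j - b0 := hpP.trans (hx2 j)
    have h2 : (p : ℤ) ∣ (b0 : ℤ) - (cl y p : ℤ) := by
      have := hb0' p hp1 hpy
      exact (Nat.modEq_iff_dvd.mp this.symm)
    have h3 : (p : ℤ) ∣ w a j - (cl y p : ℤ) := by
      have := dvd_add h1 h2
      have e : w a j - b0 + ((b0 : ℤ) - (cl y p : ℤ)) = w a j - (cl y p : ℤ) := by ring
      rwa [e] at this
    refine ⟨p, hp1, hp2.trans hyZ, ?_⟩
    have h4 := dvd_add (Dvd.dvd.mul_right h3 (w a j + (cl y p : ℤ))) hp3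
    have e : (w a j - (cl y p : ℤ)) * (w a j + (cl y p : ℤ)) + ((cl y p : ℤ) ^ 2 + h) =
        w a j ^ 2 + h := by ring
    rwa [e] at h4

end Run7.h914.SQJ
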