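import Pool.Agent.Run7.h914.Sys
import Pool.Agent.Run7.h914.SQJ.Rpt

/-! Systems of equations with separated variables modulo `p`: the squares of the coordinates. -/

set_option autoImplicit false
set_option linter.all false

namespace Run7.h914.SQJ

open Finset Filter Polynomial
open Run7.h914 (SysS sys_sum ev_large ev_const sqrt_pow_rpow)

theorem rec_sysS (n k : ℕ) (hn : 2 * k < n) (δ : ℝ) (hδ : 0 < δ) (hδ1 : δ ≤ 1) :
    ∃ κ : ℝ, 0 < κ ∧ ∃ p₀ : ℕ, ∀ (p : ℕ) [Fact p.Prime], p₀ ≤ p →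
    ∀ (d : ℕ) (f : Fin n → Fin k → (ZMod p)[X]) (b : Fin k → ZMod p), (d : ℝ) ≤ (p : ℝ) ^ (δ / (50 * n)) →
    (∀ i j, (f i j).natDegree ≤ d) →
    (∀ i, ∀ (t : Fin k → ZMod p) (a c : ZMod p), ∑ j, C (t j) * f i j = C a * X + C c → t = 0) →
    ∀ (M : Fin n → ℤ) (L : Fin n → ℕ), (∀ j, (p : ℝ) ^ δ ≤ L j ∧ L j ≤ p) →
      (p : ℝ) ^ ((n : ℝ) / 2 + k + δ) ≤ ∏ j, (L j : ℝ) →
    (p : ℝ) ^ (-δ) * ((p : ℝ) ^ ((n : ℝ) - k) * ∏ j, ((L j : ℝ) / p)) ≤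
      (Set.ncard {z : Fin n → ℤ | (∀ j, M j < z j ∧ z j ≤ M j + L j) ∧
        (∀ j, ∑ i, (f i j).eval (z i : ZMod p) = b j) ∧ GoodS n κ δ p z} : ℝ) := by
  classical
  have hn0 : 0 < n := by omega
  have hnr : (1 : ℝ) ≤ n := by exact_mod_cast hn0
  obtain ⟨κ, hκ, p₁, h⟩ := rec_ptsS n δ hδ hδ1
  obtain ⟨p₂, h2⟩ := ev_large (δ / n) (by positivity) (by rw [div_le_one (by linarith)]; linarith)
  obtain ⟨p₃, h3⟩ := ev_const (1 / 4) 2 (by norm_num)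
  refine ⟨κ, hκ, max p₁ (max p₂ p₃), ?_⟩
  intro p _ hpp d f b hdp hf hind M L hL hV
  have hp : p.Prime := Fact.out
  have e1 : p₁ ≤ p := (le_max_left _ _).trans hpp
  have e2 : p₂ ≤ p := ((le_max_left _ _).trans (le_max_right _ _)).trans hpp
  have e3 : p₃ ≤ p := ((le_max_right _ _).trans (le_max_right _ _)).trans hpp
  have hp0 : (0 : ℝ) < p := by exact_mod_cast hp.pos
  have hp1 : (1 : ℝ) < p := by exact_mod_cast hp.one_lt
  -- we may suppose `1 ≤ d`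
  have hδn : 0 < δ / (50 * n) := by positivity
  obtain ⟨D, hD1, hdD, hDp⟩ : ∃ D : ℕ, 1 ≤ D ∧ d ≤ D ∧ (D : ℝ) ≤ (p : ℝ) ^ (δ / n / 50) := by
    have e : δ / n / 50 = δ / (50 * n) := by field_simp
    rw [e]
    rcases Nat.eq_zero_or_pos d with h0 | h0
    · refine ⟨1, le_refl _, by omega, ?_⟩
      rw [Nat.cast_one]
      exact Real.one_le_rpow hp1.le hδn.le
    · exact ⟨d, h0, le_refl _, hdp⟩
  obtain ⟨a1, a2, a3, a4⟩ := h2 p e2 D hDp
  have hf' : ∀ i j, (f i j).natDegree ≤ D := fun i j => (hf i j).trans hdD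
  set W : ℝ := 13 * (D + 1 : ℝ) ^ 4 with hW
  have hW0 : 0 ≤ W := by rw [hW]; positivity
  have hWn : W ^ n ≤ (p : ℝ) ^ (δ / 8) := by
    have h5 : W ≤ (p : ℝ) ^ (δ / n / 8) := by
      have : (0 : ℝ) ≤ (D + 1 : ℝ) ^ 4 := by positivity
      rw [hW]
      linarith
    refine (pow_le_pow_left₀ hW0 h5 n).trans (le_of_eq ?_)
    rw [← Real.rpow_natCast, ← Real.rpow_mul hp0.le]
    congr 1
    field_simp
  have hmo : ∀ x y : ℝ, x ≤ y → (p : ℝ) ^ x ≤ (p : ℝ) ^ y := fun x y h =>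
    Real.rpow_le_rpow_of_exponent_le hp1.le h
  have hkr : 2 * (k : ℝ) + 1 ≤ n := by exact_mod_cast hn
  have hbound : (W * √(p : ℝ)) ^ n = W ^ n * (p : ℝ) ^ ((n : ℝ) / 2) := by
    rw [mul_pow, sqrt_pow_rpow hp.pos]
  set S := SysS f b with hS
  have hpk : (0 : ℝ) < (p : ℝ) ^ k := by positivity
  have hcard : (p : ℝ) ^ ((n : ℝ) - k) / 2 ≤ S.card := by
    have h5 := sys_sum hf' hD1 hind a4 b 0
    rw [if_pos rfl, ← hW, hbound] at h5
    simp only [Pi.zero_apply, zero_mul, Finset.sum_const_zero, AddChar.map_zero_eq_one, Finset.sum_const, nsmul_eq_mul,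
      mul_one] at h5
    have h6 : (p : ℝ) ^ n - (p : ℝ) ^ k * S.card ≤ (p : ℝ) ^ k * (W ^ n * (p : ℝ) ^ ((n : ℝ) / 2)) := by
      refine le_trans ?_ h5
      rw [norm_sub_rev]
      have h7 : ((p : ℂ) ^ n - (p : ℂ) ^ k * (S.card : ℂ)) = (((p : ℝ) ^ n - (p : ℝ) ^ k * S.card : ℝ) : ℂ) := by
        push_cast; ring
      rw [← hS, h7, Complex.norm_real]
      exact le_abs_self _
    have h7 : (p : ℝ) ^ n = (p : ℝ) ^ k * (p : ℝ) ^ ((n : ℝ) - k) := by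
      rw [← Real.rpow_natCast _ k, ← Real.rpow_add hp0, ← Real.rpow_natCast]
      congr 1
      ring
    have h8 : (p : ℝ) ^ k * ((p : ℝ) ^ ((n : ℝ) - k) - S.card) ≤ (p : ℝ) ^ k * (W ^ n * (p : ℝ) ^ ((n : ℝ) / 2)) := by
      rw [mul_sub, ← h7]; exact h6
    have h9 := le_of_mul_le_mul_left h8 hpk
    have h10 : 2 * (W ^ n * (p : ℝ) ^ ((n : ℝ) / 2)) ≤ (p : ℝ) ^ ((n : ℝ) - k) := by
      have h11 : (p : ℝ) ^ ((1 : ℝ) / 4) * ((p : ℝ) ^ (δ / 8) * (p : ℝ) ^ ((n : ℝ) / 2)) ≤ (p : ℝ) ^ ((n : ℝ) - k) := by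
        rw [← Real.rpow_add hp0, ← Real.rpow_add hp0]
        exact hmo _ _ (by linarith)
      refine le_trans ?_ h11
      have h12 : (0 : ℝ) ≤ (p : ℝ) ^ ((n : ℝ) / 2) := Real.rpow_nonneg hp0.le _
      have h13 : (0 : ℝ) ≤ (p : ℝ) ^ (δ / 8) := Real.rpow_nonneg hp0.le _
      exact mul_le_mul (h3 p e3) (mul_le_mul_of_nonneg_right hWn h12) (by positivity) (Real.rpow_nonneg hp0.le _)
    linarith
  have key := h p e1 ((n : ℝ) - k) ((n : ℝ) / 2 - k) S hcard (by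
    intro α hα
    have h5 := sys_sum hf' hD1 hind a4 b α
    rw [if_neg hα, sub_zero, norm_mul, norm_pow, Complex.norm_natCast, ← hW, hbound] at h5
    have h7 := le_of_mul_le_mul_left h5 hpk
    have e : (n : ℝ) - k - ((n : ℝ) / 2 - k) = (n : ℝ) / 2 := by ring
    rw [e]
    exact h7.trans (mul_le_mul_of_nonneg_right hWn (Real.rpow_nonneg hp0.le _))) M L hL (by
      have e : (n : ℝ) - ((n : ℝ) / 2 - k) + δ = (n : ℝ) / 2 + k + δ := by ring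
      rw [e]; exact hV)
  refine key.trans (le_of_eq ?_)
  congr 2
  ext z
  simp only [Set.mem_setOf_eq, hS, SysS, mem_filter, mem_univ, true_and]

end Run7.h914.SQJ
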